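import Pool.Graph.R_pool_sql_team_seeded_3997aac3.Q112.CH.CayTough

/-!
# Enumerations of Cayley graphs along trees with at most two children
-/

set_option autoImplicit false

namespace Pool.Agent.Helper43.LT

open Finset SimpleGraph
open Pool.Agent.Q112.CH

/-- A nontrivial finite tree of maximum degree three can be rooted such that every vertex has at
most two children. -/
theorem exists_root {W : Type*} [Fintype W] (T : SimpleGraph W) (hT : T.IsTree) [Nontrivial W]
    (h3 : ∀ v, dg T v ≤ 3) : ∃ (r : W) (pr : W → W) (d : W → ℕ), d r = 0 ∧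
      (∀ x, d x = 0 → x = r) ∧
      (∀ x, x ≠ r → T.Adj (pr x) x ∧ d (pr x) < d x) ∧
      ∀ u (S : Finset W), (∀ x ∈ S, x ≠ r ∧ pr x = u) → S.card ≤ 2 := by
  classical
  obtain ⟨r, hr⟩ := hT.exists_vert_degree_one_of_nontrivial
  have hcon : T.Connected := hT.connected
  have hex : ∀ x, ∃ y, x ≠ r → T.Adj y x ∧ T.dist r y < T.dist r x := by
    intro x
    by_cases hx : x = r
    · exact ⟨x, fun h => absurd hx h⟩
    obtain ⟨p, hp⟩ := hcon.exists_walk_length_eq_dist x r
    cases p with
    | nil => exact absurd rfl hx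
    | cons hadj q =>
      rename_i y
      refine ⟨y, fun _ => ⟨hadj.symm, ?_⟩⟩
      rw [Walk.length_cons] at hp
      rw [dist_comm (u := r) (v := y), dist_comm (u := r) (v := x), ← hp]
      exact Nat.lt_succ_of_le (dist_le q)
  choose pr hpr using hex
  refine ⟨r, pr, fun x => T.dist r x, dist_self, ?_, hpr, ?_⟩
  · intro x hx
    exact (hcon.dist_eq_zero_iff.1 hx).symm
  · intro u S hS
    by_cases hu : u = r
    · have h1 : S ⊆ univ.filter (fun w => T.Adj u w) := by
        intro x hx
        obtain ⟨a1, a2⟩ := hS x hx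
        refine mem_filter.2 ⟨mem_univ _, ?_⟩
        rw [← a2]
        exact (hpr x a1).1
      have h2 : (univ.filter (fun w => T.Adj u w)).card = 1 := by
        rw [hu]
        rw [← hr, ← card_neighborFinset_eq_degree, neighborFinset_eq_filter]
      have h3 := card_le_card h1
      omega
    · have h1 : S ⊆ (univ.filter (fun w => T.Adj u w)).erase (pr u) := by
        intro x hx
        obtain ⟨a1, a2⟩ := hS x hx
        refine mem_erase.2 ⟨?_, mem_filter.2 ⟨mem_univ _, ?_⟩⟩
        · rintro rfl
          have h4 := (hpr u hu).2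
          have h5 := (hpr (pr u) a1).2
          rw [a2] at h5
          omega
        · rw [← a2]
          exact (hpr x a1).1
      have h2 : pr u ∈ univ.filter (fun w => T.Adj u w) :=
        mem_filter.2 ⟨mem_univ _, (hpr u hu).1.symm⟩
      have h4 := card_le_card h1
      rw [card_erase_of_mem h2] at h4
      have h5 := h3 u
      unfold dg at h5
      have h6 : (univ.filter (fun w => T.Adj u w)).card ≤ 3 := by
        convert h5
      omega

/-- **Enumeration.** -/
theorem exists_enum {Γ : Type*} [Group Γ] [Finite Γ] (B : Set Γ) (hB : ∀ b ∈ B, b⁻¹ ∈ B)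
    (hgen : Subgroup.closure B = ⊤) (hcard : 2 ≤ Nat.card Γ) :
    ∃ (e : ℕ → Γ) (par : ℕ → ℕ), (∀ x, ∃ i < Nat.card Γ, e i = x) ∧
      (∀ i j, i < Nat.card Γ → j < Nat.card Γ → e i = e j → i = j) ∧
      (∀ j, 0 < j → j < Nat.card Γ → par j < j) ∧
      (∀ j, 0 < j → j < Nat.card Γ → (e (par j))⁻¹ * e j ∈ B) ∧
      ∀ u < Nat.card Γ, ((Finset.range (Nat.card Γ)).filter (fun j => 0 < j ∧ par j = u)).card ≤ 2
    := by
  classical
  have : Fintype Γ := Fintype.ofFinite Γ
  have hcard' : Nat.card Γ = Fintype.card Γ := Nat.card_eq_fintype_card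
  have : Nontrivial Γ := by
    rw [← Fintype.one_lt_card_iff_nontrivial, ← hcard']
    omega
  obtain ⟨T0, hT0, hT0c, hT03⟩ := cay_deg_three B hB hgen
  obtain ⟨T, hTT0, hT⟩ := hT0c.exists_isTree_le
  have hT3 : ∀ v, dg T v ≤ 3 := by
    intro v
    refine le_trans ?_ (hT03 v)
    unfold dg
    refine card_le_card fun x hx => ?_
    exact mem_filter.2 ⟨mem_univ _, hTT0 (mem_filter.1 hx).2⟩
  obtain ⟨r, pr, d, hd0, hd1, hpr, hch⟩ := exists_root T hT hT3
  rw [hcard']
  set n := Fintype.card Γ with hn
  let e0 : Γ ≃ Fin n := Fintype.equivFin Γ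
  set key : Γ → ℕ := fun x => d x * n + (e0 x : ℕ) with hkey
  have hkeyinj : ∀ x y, key x = key y → x = y := by
    intro x y h
    have h1 := (e0 x).2
    have h2 := (e0 y).2
    have h3 : (e0 x : ℕ) = e0 y := by
      have := congrArg (· % n) h
      simp only [hkey, Nat.mul_add_mod_self_right] at this
      rwa [Nat.mod_eq_of_lt h1, Nat.mod_eq_of_lt h2] at this
    exact e0.injective (Fin.ext h3)
  have hkeylt : ∀ x y, d x < d y → key x < key y := by
    intro x y h
    have h1 := (e0 x).2
    have h2 : (d x + 1) * n ≤ d y * n := Nat.mul_le_mul_right _ h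
    simp only [hkey]
    rw [Nat.add_mul, Nat.one_mul] at h2
    omega
  set rank : Γ → ℕ := fun x => (univ.filter (fun y => key y < key x)).card with hrank
  have hrlt : ∀ x y, key x < key y → rank x < rank y := by
    intro x y h
    refine card_lt_card ?_
    rw [ssubset_iff_of_subset]
    · exact ⟨x, mem_filter.2 ⟨mem_univ _, h⟩, fun h' => lt_irrefl _ (mem_filter.1 h').2⟩
    · intro z hz
      exact mem_filter.2 ⟨mem_univ _, lt_trans (mem_filter.1 hz).2 h⟩
  have hrinj : ∀ x y, rank x = rank y → x = y := by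
    intro x y h
    by_contra hne
    rcases lt_trichotomy (key x) (key y) with h1 | h1 | h1
    · have := hrlt x y h1
      omega
    · exact hne (hkeyinj x y h1)
    · have := hrlt y x h1
      omega
  have hrn : ∀ x, rank x < n := by
    intro x
    refine lt_of_lt_of_le (card_lt_card (t := univ) ?_) (le_of_eq (card_univ))
    rw [ssubset_univ_iff]
    intro h
    have := mem_univ x
    rw [← h] at this
    exact lt_irrefl _ (mem_filter.1 this).2
  let f : Γ → Fin n := fun x => ⟨rank x, hrn x⟩
  have hf : Function.Bijective f := by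
    rw [Fintype.bijective_iff_injective_and_card]
    refine ⟨fun x y h => hrinj x y (congrArg Fin.val h), ?_⟩
    rw [Fintype.card_fin]
  let E := Equiv.ofBijective f hf
  set e : ℕ → Γ := fun i => if h : i < n then E.symm ⟨i, h⟩ else 1 with he
  have her : ∀ x, e (rank x) = x := by
    intro x
    have h1 : e (rank x) = E.symm ⟨rank x, hrn x⟩ := dif_pos (hrn x)
    rw [h1, Equiv.symm_apply_eq]
    rfl
  have hre : ∀ i, i < n → rank (e i) = i := by
    intro i hi
    have h1 : e i = E.symm ⟨i, hi⟩ := dif_pos hi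
    have h2 : E (e i) = ⟨i, hi⟩ := by rw [h1, Equiv.apply_symm_apply]
    exact congrArg Fin.val h2
  have hr0 : rank r = 0 := by
    rw [hrank]
    simp only
    rw [card_eq_zero, filter_eq_empty_iff]
    intro y _ hy
    have h1 : key r < n := by
      simp only [hkey, hd0, Nat.zero_mul, Nat.zero_add]
      exact (e0 r).2
    have h2 : d y = 0 := by
      by_contra h3
      have h4 : n ≤ d y * n := Nat.le_mul_of_pos_left _ (Nat.pos_of_ne_zero h3)
      have h5 : key y = d y * n + (e0 y : ℕ) := rfl
      omega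
    rw [hd1 y h2] at hy
    exact lt_irrefl _ hy
  have hner : ∀ j, 0 < j → j < n → e j ≠ r := by
    intro j hj hjn h
    have := hre j hjn
    rw [h, hr0] at this
    omega
  refine ⟨e, fun j => rank (pr (e j)), ?_, ?_, ?_, ?_, ?_⟩
  · intro x
    exact ⟨rank x, hrn x, her x⟩
  · intro i j hi hj h
    rw [← hre i hi, ← hre j hj, h]
  · intro j hj hjn
    have h1 := hrlt _ _ (hkeylt _ _ (hpr (e j) (hner j hj hjn)).2)
    rwa [hre j hjn] at h1
  · intro j hj hjn
    rw [her]
    exact (hT0 (hTT0 (hpr (e j) (hner j hj hjn)).1)).2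
  · intro u hu
    have h1 := hch (e u) (((Finset.range n).filter (fun j => 0 < j ∧ rank (pr (e j)) = u)).image e)
      (by
        intro x hx
        obtain ⟨j, hj, rfl⟩ := mem_image.1 hx
        obtain ⟨a1, a2, a3⟩ := mem_filter.1 hj
        refine ⟨hner j a2 (mem_range.1 a1), ?_⟩
        rw [← a3, her])
    rwa [card_image_of_injOn] at h1
    intro i hi j hj h
    obtain ⟨a1, -⟩ := mem_filter.1 (mem_coe.1 hi)
    obtain ⟨b1, -⟩ := mem_filter.1 (mem_coe.1 hj)
    rw [← hre i (mem_range.1 a1), ← hre j (mem_range.1 b1), h]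

end Pool.Agent.Helper43.LT
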