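import Pool.Agent.Helper43.LT.Group
import Pool.Agent.Helper43.LT.Enum
import Pool.Agent.Helper43.LG.Inst
import Pool.Agent.Helper43.TW.Stage

/-!
# Hamilton-connected normal subgroups of a subgroup
-/

set_option autoImplicit false

namespace Pool.Agent.Helper43.LT

open Pool.Agent.Helper43.CQ Pool.Agent.Helper43.TW Pool.Agent.Helper43.LG

variable {G : Type*} [Group G]

/-- representatives of the left cosets of `L` in `H` along a rooted tree -/
structure TReps (A : Set G) (L H : Subgroup G) (N : ℕ) (w : ℕ → G) (par : ℕ → ℕ) (c : ℕ → G) :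
    Prop where
  reps : Reps L H N w
  par_lt : ∀ j, 0 < j → j < N → par j < j
  mem : ∀ j, 0 < j → j < N → c j ∈ A ∧ c j ∈ H
  link : ∀ j, 0 < j → j < N → (w (par j) * c j)⁻¹ * w j ∈ L
  two : ∀ u < N, ((Finset.range N).filter (fun j => 0 < j ∧ par j = u)).card ≤ 2

theorem exists_treps [Finite G] {A : Set G} (hA : ∀ x ∈ A, x⁻¹ ∈ A) {L H : Subgroup G}
    (hLH : L ≤ H) (hnorm : ∀ h ∈ H, ∀ x ∈ L, h * x * h⁻¹ ∈ L)
    (hgen : Subgroup.closure (A ∩ H) = H) (h80 : 80 * Nat.card L ≤ Nat.card H) :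
    ∃ N w par c, 80 ≤ N ∧ TReps A L H N w par c := by
  classical
  have hn : (L.subgroupOf H).Normal := by
    refine ⟨fun x hx g => ?_⟩
    rw [Subgroup.mem_subgroupOf] at hx ⊢
    exact hnorm g g.2 x hx
  set Q := H ⧸ L.subgroupOf H with hQ
  set B : Set Q := QuotientGroup.mk' (L.subgroupOf H) '' {x : H | (x : G) ∈ A} with hB
  have hBinv : ∀ b ∈ B, b⁻¹ ∈ B := by
    rintro _ ⟨a, ha, rfl⟩
    exact ⟨a⁻¹, hA _ ha, map_inv _ a⟩
  have hBgen : Subgroup.closure B = ⊤ := by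
    have h1 : (⊤ : Subgroup H).map (QuotientGroup.mk' (L.subgroupOf H)) = ⊤ :=
      Subgroup.map_top_of_surjective _ (QuotientGroup.mk'_surjective _)
    rw [← closure_sub hgen, MonoidHom.map_closure] at h1
    exact h1
  have hcardL : 0 < Nat.card L := Nat.card_pos
  have hcardQ : Nat.card Q * Nat.card L = Nat.card H := by
    have h1 := Subgroup.card_eq_card_quotient_mul_card_subgroup (L.subgroupOf H)
    rw [h1]
    congr 1
    exact (Nat.card_congr (Subgroup.subgroupOfEquivOfLe hLH).toEquiv).symm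
  have hN : 80 ≤ Nat.card Q := by
    rw [← hcardQ] at h80
    exact Nat.le_of_mul_le_mul_right h80 hcardL
  obtain ⟨e, par, e1, e2, e3, e4, e5⟩ := exists_enum B hBinv hBgen (by omega)
  have hc : ∀ j, ∃ c : H, 0 < j → j < Nat.card Q → (c : G) ∈ A ∧
      (QuotientGroup.mk c : Q) = (e (par j))⁻¹ * e j := by
    intro j
    by_cases hj : 0 < j ∧ j < Nat.card Q
    · obtain ⟨c, hc1, hc2⟩ := e4 j hj.1 hj.2
      exact ⟨c, fun _ _ => ⟨hc1, hc2⟩⟩
    · exact ⟨1, fun h1 h2 => absurd ⟨h1, h2⟩ hj⟩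
  choose c hc using hc
  refine ⟨Nat.card Q, fun j => ((e j).out : H), par, fun j => c j, hN, ⟨?_, ?_, ?_⟩, e3,
    fun j hj hjN => ⟨(hc j hj hjN).1, (c j).2⟩, ?_, e5⟩
  · intro i _
    exact ((e i).out).2
  · intro h hh
    obtain ⟨i, hi, h1⟩ := e1 (QuotientGroup.mk (⟨h, hh⟩ : H))
    refine ⟨i, hi, ?_⟩
    have h2 : (QuotientGroup.mk (e i).out : Q) = QuotientGroup.mk (⟨h, hh⟩ : H) := by
      rw [← h1]
      exact QuotientGroup.out_eq' _
    rw [QuotientGroup.eq] at h2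
    exact h2
  · intro i j hi hj h
    apply e2 i j hi hj
    rw [← QuotientGroup.out_eq' (e i), ← QuotientGroup.out_eq' (e j), QuotientGroup.eq,
      Subgroup.mem_subgroupOf]
    exact h
  · intro j hj hjN
    have h1 := (hc j hj hjN).2
    have h2 : (QuotientGroup.mk ((e (par j)).out * c j) : Q) = QuotientGroup.mk (e j).out := by
      rw [QuotientGroup.mk_mul, h1, QuotientGroup.out_eq', QuotientGroup.out_eq',
        mul_inv_cancel_left]
    rw [QuotientGroup.eq] at h2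
    exact h2

/-- Hamilton-connected cells -/
theorem tcells_connected [Finite G] {A : Set G} (hA : ∀ x ∈ A, x⁻¹ ∈ A) {L H : Subgroup G}
    (hnorm : ∀ h ∈ H, ∀ x ∈ L, h * x * h⁻¹ ∈ L) {N : ℕ} {w : ℕ → G} {par : ℕ → ℕ} {c : ℕ → G}
    (hw : TReps A L H N w par c) (h3 : 3 ≤ Nat.card L) (hcon : HamConnected A L) (g : G) :
    TCells (fun x y => x⁻¹ * y ∈ A) N (Dc L w g) par (fun j x => x * c j) := by
  classical
  have hgood := good_iff_connected.2 hcon
  have hHP : ∀ j, ∀ x ∈ Dc L w g j, ∀ y ∈ Dc L w g j, x ≠ y → HP (cadj A) (Dc L w g j) x y := by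
    intro j x hx y hy hxy
    have h1 : HP (cadj A) (L : Set G) 1 (x⁻¹ * y) := by
      refine hgood _ ((mem_Dc hx).1 hy) ?_
      change x⁻¹ * y ≠ 1
      intro h
      exact hxy (inv_mul_eq_one.1 h)
    have h2 := HP_coset h1
    have h4 : {v | x⁻¹ * v ∈ L} = Dc L w g j := by
      ext v
      exact (mem_Dc hx).symm
    rwa [h4] at h2
  have hlink : ∀ j, 0 < j → j < N → ∀ x, x ∈ Dc L w g (par j) ↔ x * c j ∈ Dc L w g j := by
    intro j hj hjN x
    have hcH := (hw.mem j hj hjN).2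
    have hl := hw.link j hj hjN
    change (g * w (par j))⁻¹ * x ∈ L ↔ (g * w j)⁻¹ * (x * c j) ∈ L
    have e : (g * w j)⁻¹ * (x * c j) = ((w (par j) * c j)⁻¹ * w j)⁻¹ *
        ((c j)⁻¹ * ((g * w (par j))⁻¹ * x) * ((c j)⁻¹)⁻¹) := by group
    rw [e, Subgroup.mul_mem_cancel_left L (L.inv_mem hl)]
    constructor
    · intro h
      exact hnorm _ (H.inv_mem hcH) _ h
    · intro h
      have h1 := hnorm _ hcH _ h
      have e2 : c j * ((c j)⁻¹ * ((g * w (par j))⁻¹ * x) * ((c j)⁻¹)⁻¹) * (c j)⁻¹ =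
          (g * w (par j))⁻¹ * x := by group
      rwa [e2] at h1
  refine ⟨?_, ?_, hw.par_lt, ?_, ?_, ?_, ?_, ?_, hw.two⟩
  · intro x y h
    have := hA _ h
    rwa [mul_inv_rev, inv_inv] at this
  · intro i j hi hj x h1 h2
    apply hw.reps.inj i j hi hj
    have e : (w i)⁻¹ * w j = ((g * w i)⁻¹ * x) * ((g * w j)⁻¹ * x)⁻¹ := by group
    rw [e]
    exact L.mul_mem h1 (L.inv_mem h2)
  · intro j hj hjN x hx
    refine ⟨(hlink j hj hjN x).1 hx, ?_⟩
    rw [inv_mul_cancel_left]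
    exact (hw.mem j hj hjN).1
  · intro j _ _ x _ y _ h
    exact mul_right_cancel h
  · intro j hj hjN y hy
    refine ⟨y * (c j)⁻¹, ?_, inv_mul_cancel_right _ _⟩
    rw [hlink j hj hjN, inv_mul_cancel_right]
    exact hy
  · intro j _ a b
    by_contra hno
    push Not at hno
    have hsub : (L : Set G) ⊆ {(g * w j)⁻¹ * a, (g * w j)⁻¹ * b} := by
      intro c hc
      have h1 : g * w j * c ∈ Dc L w g j := by
        change (g * w j)⁻¹ * (g * w j * c) ∈ L
        rwa [inv_mul_cancel_left]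
      by_cases h : g * w j * c = a
      · left
        rw [← h, inv_mul_cancel_left]
      · right
        have := hno _ h1 h
        rw [← this, inv_mul_cancel_left]
        rfl
    have h1 := Set.ncard_le_ncard hsub (Set.toFinite _)
    have h2 := Set.ncard_insert_le ((g * w j)⁻¹ * a) {(g * w j)⁻¹ * b}
    rw [Set.ncard_singleton] at h2
    have h4 : (L : Set G).ncard = Nat.card L := rfl
    omega
  · intro j hj x hx y hy hxy
    obtain ⟨l, h1, h2, h3, h4, h5⟩ := hHP j x hx y hy hxy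
    exact ⟨l, h1, h2, h3, h4, h5⟩

/-- **The main theorem.** -/
theorem tree_theorem [Finite G] (A : Set G) (hA : ∀ x ∈ A, x⁻¹ ∈ A)
    (hgen : Subgroup.closure A = ⊤) {L H : Subgroup G} (hLH : L ≤ H)
    (hnorm : ∀ h ∈ H, ∀ x ∈ L, h * x * h⁻¹ ∈ L) (hH : Subgroup.closure (A ∩ H) = H)
    (h3 : 3 ≤ Nat.card L) (h80 : 80 * Nat.card L ≤ Nat.card H) (hcon : HamConnected A L) :
    ∃ l : List G, Listing A l ∧ l.prod = 1 := by
  obtain ⟨N, w, par, c, hN, hw⟩ := exists_treps hA hLH hnorm hH h80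
  obtain ⟨σ, hσ1, hσ2⟩ := group_tree A hA hgen hLH hw.reps hN
    (fun g => tcells_connected hA hnorm hw h3 hcon g)
  exact Q238.RS.closed_listing_of_hcyc ⟨σ, ⟨Set.bijOn_univ.mpr σ.bijective,
    fun x _ y _ => hσ2 x y⟩, fun x hx => absurd (Set.mem_univ x) hx, fun x _ => hσ1 x⟩

end Pool.Agent.Helper43.LT
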