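import Pool.Agent.Helper43.LT.Step

/-!
# The induction along the tree
-/

set_option autoImplicit false

namespace Pool.Agent.Helper43.LT

open Pool.Agent.Helper43.LG

variable {X : Type*} {R : X → X → Prop} {N : ℕ} {D : ℕ → Set X} {par : ℕ → ℕ} {φ : ℕ → X → X}

/-- one cell without slots -/
theorem base0 [Nonempty X] (hc : TCells R N D par φ) (hN : 0 < N) {M : X → X → Prop}
    {F : X → Set X} {need : ℕ → ℕ} (hM : Mat M ∅) (hn : need 0 ≤ 2) :
    ∃ r l, Fine R D 1 ∅ M F need r l := by
  obtain ⟨x0⟩ := (inferInstance : Nonempty X)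
  obtain ⟨x, hx, -, -⟩ := hc.three 0 hN x0 x0
  obtain ⟨y, hy, hyx, -⟩ := hc.three 0 hN x x
  obtain ⟨h, hh1, hh2, hh3⟩ := hc.path 0 hN x hx y hy hyx.symm
  have hlen := hc.path_len hN hh2 hx
  match h, hh1, hh2, hh3, hlen with
  | x' :: h1 :: rest, hh1, hh2, hh3, _ =>
    have hx' : x' = x := Option.some.inj hh3.head
    subst hx'
    have hne : x' ≠ h1 := by
      simp only [List.nodup_cons, List.mem_cons, not_or] at hh1
      exact hh1.1.1
    have hR1 : R x' h1 := by
      have := hh3.chain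
      rw [List.isChain_cons_cons] at this
      exact this.1
    obtain ⟨l, l1, l2, l3⟩ := hc.path 0 hN x' hx h1 ((hh2 h1).1 (by simp)) hne
    have hU : ∀ z, z ∈ l ↔ z ∈ Un D 1 := by
      intro z
      rw [l2]
      constructor
      · intro hz
        exact ⟨0, by omega, hz⟩
      · rintro ⟨j, hj, hz⟩
        obtain rfl : j = 0 := by omega
        exact hz
    have hH : Half R D 0 ∅ M F need id l l := by
      refine ⟨⟨by simp, by simp, l1, hc.path_len hN l2 hx, hU, ?_, ?_⟩, by simp, ?_, l1,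
        hc.path_len hN l2 hx, l2, ?_⟩
      · intro u v huv
        left
        rcases huv with huv | ⟨e1, e2⟩ | ⟨e1, e2⟩
        · exact nb_chain hc.symm l3.chain huv
        · rw [l3.head] at e1
          rw [l3.last] at e2
          rw [← Option.some.inj e1, ← Option.some.inj e2]
          exact hR1
        · rw [l3.head] at e1
          rw [l3.last] at e2
          rw [← Option.some.inj e1, ← Option.some.inj e2]
          exact hc.symm _ _ hR1
      · intro p q hpq
        exact absurd hpq (hM.eq_empty p q)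
      · intro j hj
        omega
      · intro u v huv
        exact ⟨Or.inl huv, fun ⟨p, q, hpq, _⟩ => hM.eq_empty p q hpq⟩
    exact ⟨_, _, hH.close hn⟩

/-- one cell with two slots -/
theorem base2 (hc : TCells R N D par φ) (hN : 0 < N) {M : X → X → Prop}
    {F : X → Set X} {need : ℕ → ℕ} {i j : X} (hM : Mat M {i, j}) (hij : i ≠ j) (hMij : M i j)
    {c d : X} (hc1 : c ∈ F i) (hd1 : d ∈ F j) (hc2 : c ∈ D 0) (hd2 : d ∈ D 0) (hcd : c ≠ d)
    (hn : need 0 ≤ 2) : ∃ r l, Fine R D 1 {i, j} M F need r l := by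
  classical
  obtain ⟨l, l1, l2, l3⟩ := hc.path 0 hN c hc2 d hd2 hcd
  have hlen := hc.path_len hN l2 hc2
  set r : X → X := fun q => if q = i then c else d with hr
  have ri : r i = c := if_pos rfl
  have rj : r j = d := if_neg hij.symm
  have hU : ∀ z, z ∈ l ↔ z ∈ Un D 1 := by
    intro z
    rw [l2]
    constructor
    · intro hz
      exact ⟨0, by omega, hz⟩
    · rintro ⟨j, hj, hz⟩
      obtain rfl : j = 0 := by omega
      exact hz
  have hJ : ∀ p q, M p q → (p = i ∧ q = j) ∨ (p = j ∧ q = i) := by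
    intro p q hpq
    obtain ⟨h1, h2⟩ := hM.mem hpq
    rw [Set.mem_insert_iff, Set.mem_singleton_iff] at h1 h2
    rcases h1 with rfl | rfl
    · rcases h2 with rfl | rfl
      · exact absurd hpq (hM.irr _)
      · exact Or.inl ⟨rfl, rfl⟩
    · rcases h2 with rfl | rfl
      · exact Or.inr ⟨rfl, rfl⟩
      · exact absurd hpq (hM.irr _)
  have hH : Half R D 0 {i, j} M F need r l l := by
    refine ⟨⟨?_, ?_, l1, hlen, hU, ?_, ?_⟩, ?_, ?_, l1, hlen, l2, ?_⟩
    · rintro p (rfl | rfl) q (rfl | rfl) h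
      · rfl
      · rw [ri, rj] at h
        exact absurd h hcd
      · rw [ri, rj] at h
        exact absurd h.symm hcd
      · rfl
    · rintro p (rfl | rfl)
      · rw [ri]; exact ⟨0, by omega, hc2⟩
      · rw [rj]; exact ⟨0, by omega, hd2⟩
    · intro u v huv
      rcases huv with huv | ⟨e1, e2⟩ | ⟨e1, e2⟩
      · exact Or.inl (nb_chain hc.symm l3.chain huv)
      · right
        rw [l3.head] at e1
        rw [l3.last] at e2
        refine ⟨i, j, hMij, ?_⟩
        rw [ri, rj, Option.some.inj e1, Option.some.inj e2]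
      · right
        rw [l3.head] at e1
        rw [l3.last] at e2
        refine ⟨j, i, hM.symm _ _ hMij, ?_⟩
        rw [ri, rj, Option.some.inj e1, Option.some.inj e2]
    · intro p q hpq
      rcases hJ p q hpq with ⟨rfl, rfl⟩ | ⟨rfl, rfl⟩
      · rw [ri, rj]
        exact Or.inr (Or.inl ⟨l3.head, l3.last⟩)
      · rw [ri, rj]
        exact Or.inr (Or.inr ⟨l3.head, l3.last⟩)
    · rintro p (rfl | rfl)
      · rw [ri]; exact hc1
      · rw [rj]; exact hd1
    · intro j hj
      omega
    · intro u v huv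
      refine ⟨Or.inl huv, ?_⟩
      have hno := not_nb_ends hlen l1 l3.head l3.last
      rintro ⟨p, q, hpq, e⟩
      rcases hJ p q hpq with ⟨rfl, rfl⟩ | ⟨rfl, rfl⟩
      · rw [ri, rj, Sym2.eq_iff] at e
        rcases e with ⟨rfl, rfl⟩ | ⟨rfl, rfl⟩
        · exact hno huv.symm
        · exact hno huv
      · rw [ri, rj, Sym2.eq_iff] at e
        rcases e with ⟨rfl, rfl⟩ | ⟨rfl, rfl⟩
        · exact hno huv
        · exact hno huv.symm
  exact ⟨_, _, hH.close hn⟩

open Classical in
/-- the state of the slots in the first `k` cells -/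
structure Inv (N : ℕ) (D : ℕ → Set X) (par : ℕ → ℕ) (T : Set X) (k : ℕ) (S : Finset X)
    (M : X → X → Prop) (loc : X → ℕ) (F : X → Set X) (need : ℕ → ℕ) : Prop where
  mat : Mat M (S : Set X)
  loc_lt : ∀ q ∈ S, loc q < k
  sub : ∀ q ∈ S, F q ⊆ D (loc q)
  ne : ∀ q ∈ S, (F q).Nonempty
  cls : ∀ q ∈ S, F q ≠ D (loc q) → (q ∈ T ∧ F q = {q}) ∨ ∃ w, k ≤ w ∧ w < N ∧ par w = loc q ∧
    (∃ p ∈ T, p ∈ D w) ∧ ∃ a, F q = D (loc q) \ {a}
  uniq : ∀ p ∈ S, ∀ q ∈ S, loc p = loc q → F p ≠ D (loc p) → F q ≠ D (loc q) → p = q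
  cnt : ∀ v < k, (S.filter (fun q => loc q = v ∧ F q ≠ {q})).card + need v ≤
    ((Finset.range N).filter (fun w => k ≤ w ∧ par w = v)).card

theorem chd_succ {N k : ℕ} (hk : k < N) (par : ℕ → ℕ) (v : ℕ) :
    ((Finset.range N).filter (fun w => k + 1 ≤ w ∧ par w = v)).card +
      (if v = par k then 1 else 0) ≤
      ((Finset.range N).filter (fun w => k ≤ w ∧ par w = v)).card := by
  split_ifs with h
  · rw [← Finset.card_insert_of_notMem (a := k) (by simp)]
    refine Finset.card_le_card fun w hw => ?_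
    rw [Finset.mem_insert] at hw
    rw [Finset.mem_filter, Finset.mem_range]
    rcases hw with rfl | hw
    · exact ⟨hk, le_rfl, h.symm⟩
    · obtain ⟨h1, h2, h3⟩ := Finset.mem_filter.1 hw
      exact ⟨Finset.mem_range.1 h1, by omega, h3⟩
  · rw [add_zero]
    refine Finset.card_le_card fun w hw => ?_
    obtain ⟨h1, h2, h3⟩ := Finset.mem_filter.1 hw
    exact Finset.mem_filter.2 ⟨h1, by omega, h3⟩

/-- the state when the last cell has been removed -/
theorem Inv.stay {T : Set X} {k : ℕ} (hk : k < N) {S S' : Finset X}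
    {M M' : X → X → Prop} {loc : X → ℕ} {F : X → Set X} {need need' : ℕ → ℕ}
    (hI : Inv N D par T (k + 1) S M loc F need) (hS : S' ⊆ S) (hM : Mat M' (S' : Set X))
    (hloc : ∀ q ∈ S', loc q ≠ k)
    (hneed : ∀ v, need' v ≤ need v + (if v = par k then 1 else 0)) :
    Inv N D par T k S' M' loc F need' := by
  classical
  refine ⟨hM, ?_, fun q hq => hI.sub q (hS hq), fun q hq => hI.ne q (hS hq), ?_,
    fun p hp q hq => hI.uniq p (hS hp) q (hS hq), ?_⟩
  · intro q hq
    have h1 := hI.loc_lt q (hS hq)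
    have h2 := hloc q hq
    omega
  · intro q hq hF
    rcases hI.cls q (hS hq) hF with h | ⟨w, h1, h2⟩
    · exact Or.inl h
    · exact Or.inr ⟨w, by omega, h2⟩
  · intro v hv
    have h1 := hI.cnt v (by omega)
    have h2 := chd_succ hk par v
    have h3 := hneed v
    have h4 : (S'.filter (fun q => loc q = v ∧ F q ≠ {q})).card ≤
        (S.filter (fun q => loc q = v ∧ F q ≠ {q})).card :=
      Finset.card_le_card (Finset.filter_subset_filter _ hS)
    omega

open Classical in
/-- the state when the last cell has been removed and a slot has been moved to its parent -/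
theorem Inv.move (hc : TCells R N D par φ) {T : Set X}
    (hsep : ∀ i j, i < N → j < N →
      (i = j ∨ (0 < j ∧ par j = i) ∨ (0 < i ∧ 0 < j ∧ par i = par j)) →
      ∀ p ∈ T, ∀ q ∈ T, p ∈ D i → q ∈ D j → p = q)
    {k : ℕ} (h0 : 0 < k) (hk : k < N) {S S' : Finset X}
    {M M' : X → X → Prop} {loc : X → ℕ} {F : X → Set X} {need : ℕ → ℕ}
    (hI : Inv N D par T (k + 1) S M loc F need) (hS : S' ⊆ S) (hM : Mat M' (S' : Set X))
    {t : X} (hloc : ∀ q ∈ S', q ≠ t → loc q ≠ k) {F' : Set X}
    (hF1 : F' ⊆ D (par k)) (hF2 : F'.Nonempty)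
    (hF3 : F' = D (par k) ∨ ((∃ p ∈ T, p ∈ D k) ∧ ∃ a, F' = D (par k) \ {a})) :
    Inv N D par T k S' M' (Function.update loc t (par k)) (Function.update F t F') need := by
  have hpk := hc.par_lt k h0 hk
  have l1 : Function.update loc t (par k) t = par k := Function.update_self _ _ _
  have l2 : ∀ q, q ≠ t → Function.update loc t (par k) q = loc q :=
    fun q hq => Function.update_of_ne hq _ _
  have f1 : Function.update F t F' t = F' := Function.update_self _ _ _
  have f2 : ∀ q, q ≠ t → Function.update F t F' q = F q :=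
    fun q hq => Function.update_of_ne hq _ _
  -- other slots in the parent are free
  have key : ∀ q ∈ S', q ≠ t → loc q = par k → F' ≠ D (par k) → F q = D (loc q) := by
    intro q hq hqt hlq hF'
    by_contra hF
    obtain ⟨p0, hp0T, hp0⟩ := (hF3.resolve_left hF').1
    rcases hI.cls q (hS hq) hF with ⟨h1, h2⟩ | ⟨w, h1, h2, h3, ⟨p1, hp1T, hp1⟩, -⟩
    · have hqD : q ∈ D (par k) := by
        have := hI.sub q (hS hq)
        rw [h2, hlq] at this
        exact this rfl
      have := hsep (par k) k (by omega) hk (Or.inr (Or.inl ⟨h0, rfl⟩)) q h1 p0 hp0T hqD hp0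
      subst this
      have := hc.disj _ _ (by omega) hk _ hqD hp0
      omega
    · have := hsep k w hk h2 (Or.inr (Or.inr ⟨h0, by omega, by rw [h3, hlq]⟩)) p0 hp0T p1 hp1T
        hp0 hp1
      subst this
      have := hc.disj _ _ hk h2 _ hp0 hp1
      omega
  refine ⟨hM, ?_, ?_, ?_, ?_, ?_, ?_⟩
  · intro q hq
    by_cases hqt : q = t
    · rw [hqt, l1]; exact hpk
    · rw [l2 q hqt]
      have h1 := hI.loc_lt q (hS hq)
      have h2 := hloc q hq hqt
      omega
  · intro q hq
    by_cases hqt : q = t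
    · rw [hqt, l1, f1]; exact hF1
    · rw [l2 q hqt, f2 q hqt]
      exact hI.sub q (hS hq)
  · intro q hq
    by_cases hqt : q = t
    · rw [hqt, f1]; exact hF2
    · rw [f2 q hqt]
      exact hI.ne q (hS hq)
  · intro q hq
    by_cases hqt : q = t
    · rw [hqt, l1, f1]
      intro hF'
      obtain ⟨h1, h2⟩ := hF3.resolve_left hF'
      exact Or.inr ⟨k, le_rfl, hk, rfl, h1, h2⟩
    · rw [l2 q hqt, f2 q hqt]
      intro hF
      rcases hI.cls q (hS hq) hF with h | ⟨w, h1, h2⟩
      · exact Or.inl h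
      · exact Or.inr ⟨w, by omega, h2⟩
  · intro p hp q hq
    by_cases hpt : p = t
    · by_cases hqt : q = t
      · intro _ _ _
        rw [hpt, hqt]
      · rw [hpt, l1, f1, l2 q hqt, f2 q hqt]
        intro h1 h2 h3
        exact absurd (key q hq hqt h1.symm h2) h3
    · by_cases hqt : q = t
      · rw [hqt, l1, f1, l2 p hpt, f2 p hpt]
        intro h1 h2 h3
        exact absurd (key p hp hpt h1 h3) h2
      · rw [l2 q hqt, f2 q hqt, l2 p hpt, f2 p hpt]
        exact hI.uniq p (hS hp) q (hS hq)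
  · intro v hv
    have h1 := hI.cnt v (by omega)
    have h2 := chd_succ hk par v
    have h4 : (S'.filter (fun q => Function.update loc t (par k) q = v ∧
        Function.update F t F' q ≠ {q})).card ≤
        (S.filter (fun q => loc q = v ∧ F q ≠ {q})).card + (if v = par k then 1 else 0) := by
      by_cases hv' : v = par k
      · rw [if_pos hv']
        refine le_trans (Finset.card_le_card (t := insert t
          (S.filter (fun q => loc q = v ∧ F q ≠ {q}))) fun q hq => ?_) (Finset.card_insert_le _ _)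
        obtain ⟨a1, a2, a3⟩ := Finset.mem_filter.1 hq
        rw [Finset.mem_insert]
        by_cases hqt : q = t
        · exact Or.inl hqt
        · right
          rw [l2 q hqt] at a2
          rw [f2 q hqt] at a3
          exact Finset.mem_filter.2 ⟨hS a1, a2, a3⟩
      · rw [if_neg hv', add_zero]
        refine Finset.card_le_card fun q hq => ?_
        obtain ⟨a1, a2, a3⟩ := Finset.mem_filter.1 hq
        by_cases hqt : q = t
        · rw [hqt, l1] at a2
          exact absurd a2.symm hv'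
        · rw [l2 q hqt] at a2
          rw [f2 q hqt] at a3
          exact Finset.mem_filter.2 ⟨hS a1, a2, a3⟩
    omega

/-- the possible slots of the last cell -/
theorem Inv.slots (hc : TCells R N D par φ) {T : Set X} {k : ℕ} (hk : k < N) {S : Finset X}
    {M : X → X → Prop} {loc : X → ℕ} {F : X → Set X} {need : ℕ → ℕ}
    (hI : Inv N D par T (k + 1) S M loc F need) :
    need k ≤ 2 ∧ ((∀ q ∈ S, loc q ≠ k) ∨
      (∃ t ∈ S, loc t = k ∧ ∀ q ∈ S, q ≠ t → loc q ≠ k) ∨
      (∃ i ∈ S, ∃ j ∈ S, i ≠ j ∧ loc i = k ∧ loc j = k ∧ (∀ q ∈ S, q ≠ i → q ≠ j → loc q ≠ k) ∧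
        F j = D k ∧ need k ≤ 1) ∨
      (∃ p ∈ S, ∃ i ∈ S, ∃ j ∈ S, p ≠ i ∧ p ≠ j ∧ i ≠ j ∧ loc p = k ∧ loc i = k ∧ loc j = k ∧
        (∀ q ∈ S, q ≠ p → q ≠ i → q ≠ j → loc q ≠ k) ∧ F p = {p} ∧ F i = D k ∧ F j = D k ∧
        need k = 0)) := by
  classical
  have h1 := hI.cnt k (by omega)
  have h2 : ((Finset.range N).filter (fun w => k + 1 ≤ w ∧ par w = k)).card ≤ 2 := by
    refine le_trans (Finset.card_le_card fun w hw => ?_) (hc.two k hk)
    obtain ⟨a1, a2, a3⟩ := Finset.mem_filter.1 hw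
    exact Finset.mem_filter.2 ⟨a1, by omega, a3⟩
  refine ⟨by omega, ?_⟩
  set Sk := S.filter (fun q => loc q = k) with hSk
  have hmem : ∀ q, q ∈ Sk ↔ q ∈ S ∧ loc q = k := fun q => by rw [hSk, Finset.mem_filter]
  have hfull : ∀ q ∈ Sk, F q = D k → F q ≠ {q} := by
    intro q hq h h'
    obtain ⟨c, h3, h4, -⟩ := hc.three k hk q q
    rw [h] at h'
    rw [h'] at h3
    exact h4 h3
  have hfix : ∀ q ∈ Sk, F q = {q} → F q ≠ D k := fun q hq h h' => hfull q hq h' h
  -- at most one slot is not free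
  have huniq : ∀ p ∈ Sk, ∀ q ∈ Sk, p ≠ q → F p = D k ∨ F q = D k := by
    intro p hp q hq hpq
    by_contra hno
    push Not at hno
    obtain ⟨p1, p2⟩ := (hmem p).1 hp
    obtain ⟨q1, q2⟩ := (hmem q).1 hq
    exact hpq (hI.uniq p p1 q q1 (p2.trans q2.symm) (by rw [p2]; exact hno.1)
      (by rw [q2]; exact hno.2))
  set nf := S.filter (fun q => loc q = k ∧ F q ≠ {q}) with hnf
  have hnfm : ∀ q, q ∈ nf ↔ q ∈ Sk ∧ F q ≠ {q} := fun q => by
    rw [hnf, Finset.mem_filter, hmem]; tauto
  have hle : ∀ n, Sk.card = n → n = 0 ∨ n = 1 ∨ n = 2 ∨ n = 3 := by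
    intro n hn
    have h3 : Sk.card ≤ nf.card + 1 := by
      have h4 : Sk ⊆ nf ∪ Sk.filter (fun q => F q = {q}) := by
        intro q hq
        by_cases h : F q = {q}
        · exact Finset.mem_union_right _ (Finset.mem_filter.2 ⟨hq, h⟩)
        · exact Finset.mem_union_left _ ((hnfm q).2 ⟨hq, h⟩)
      have h5 : (Sk.filter (fun q => F q = {q})).card ≤ 1 := by
        rw [Finset.card_le_one]
        intro p hp q hq
        obtain ⟨p1, p2⟩ := Finset.mem_filter.1 hp
        obtain ⟨q1, q2⟩ := Finset.mem_filter.1 hq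
        by_contra hpq
        rcases huniq p p1 q q1 hpq with h | h
        · exact hfix p p1 p2 h
        · exact hfix q q1 q2 h
      have h6 := Finset.card_le_card h4
      have h7 := Finset.card_union_le nf (Sk.filter (fun q => F q = {q}))
      omega
    omega
  have hother : ∀ q ∈ S, q ∉ Sk → loc q ≠ k := fun q hq h h' => h ((hmem q).2 ⟨hq, h'⟩)
  rcases hle _ rfl with h3 | h3 | h3 | h3
  · left
    intro q hq
    apply hother q hq
    rw [Finset.card_eq_zero] at h3
    rw [h3]
    simp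
  · right; left
    obtain ⟨t, ht⟩ := Finset.card_eq_one.1 h3
    have htS : t ∈ Sk := by rw [ht]; simp
    refine ⟨t, ((hmem t).1 htS).1, ((hmem t).1 htS).2, fun q hq hqt => hother q hq ?_⟩
    rw [ht, Finset.mem_singleton]
    exact hqt
  · right; right; left
    obtain ⟨i, j, hij, hS⟩ := Finset.card_eq_two.1 h3
    have hiS : i ∈ Sk := by rw [hS]; simp
    have hjS : j ∈ Sk := by rw [hS]; simp
    have ho : ∀ q ∈ S, q ≠ i → q ≠ j → loc q ≠ k := by
      intro q hq h4 h5
      apply hother q hq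
      rw [hS, Finset.mem_insert, Finset.mem_singleton]
      tauto
    have hneed : ∀ q ∈ Sk, F q = D k → need k ≤ 1 := by
      intro q hq h4
      have : 0 < nf.card := Finset.card_pos.2 ⟨q, (hnfm q).2 ⟨hq, hfull q hq h4⟩⟩
      omega
    rcases huniq i hiS j hjS hij with h4 | h4
    · exact ⟨j, ((hmem j).1 hjS).1, i, ((hmem i).1 hiS).1, hij.symm, ((hmem j).1 hjS).2,
        ((hmem i).1 hiS).2, fun q hq h5 h6 => ho q hq h6 h5, h4, hneed i hiS h4⟩
    · exact ⟨i, ((hmem i).1 hiS).1, j, ((hmem j).1 hjS).1, hij, ((hmem i).1 hiS).2,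
        ((hmem j).1 hjS).2, ho, h4, hneed j hjS h4⟩
  · right; right; right
    obtain ⟨x, y, z, hxy, hxz, hyz, hS⟩ := Finset.card_eq_three.1 h3
    -- one of them is fixed
    have key : ∀ p i j, Sk = {p, i, j} → p ≠ i → p ≠ j → i ≠ j → F p = {p} →
        (∃ p ∈ S, ∃ i ∈ S, ∃ j ∈ S, p ≠ i ∧ p ≠ j ∧ i ≠ j ∧ loc p = k ∧ loc i = k ∧ loc j = k ∧
        (∀ q ∈ S, q ≠ p → q ≠ i → q ≠ j → loc q ≠ k) ∧ F p = {p} ∧ F i = D k ∧ F j = D k ∧
        need k = 0) := by
      intro p i j hS hpi hpj hij hFp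
      have hpS : p ∈ Sk := by rw [hS]; simp
      have hiS : i ∈ Sk := by rw [hS]; simp
      have hjS : j ∈ Sk := by rw [hS]; simp
      have e1 := (huniq p hpS i hiS hpi).resolve_left (hfix p hpS hFp)
      have e2 := (huniq p hpS j hjS hpj).resolve_left (hfix p hpS hFp)
      refine ⟨p, ((hmem p).1 hpS).1, i, ((hmem i).1 hiS).1, j, ((hmem j).1 hjS).1, hpi, hpj, hij,
        ((hmem p).1 hpS).2, ((hmem i).1 hiS).2, ((hmem j).1 hjS).2, ?_, hFp, e1, e2, ?_⟩
      · intro q hq h4 h5 h6
        apply hother q hq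
        rw [hS]
        simp [h4, h5, h6]
      · have h7 : ({i, j} : Finset X) ⊆ nf := by
          intro q hq
          rw [Finset.mem_insert, Finset.mem_singleton] at hq
          rcases hq with rfl | rfl
          · exact (hnfm _).2 ⟨hiS, hfull _ hiS e1⟩
          · exact (hnfm _).2 ⟨hjS, hfull _ hjS e2⟩
        have h8 := Finset.card_le_card h7
        rw [Finset.card_pair hij] at h8
        omega
    by_cases hx : F x = {x}
    · exact key x y z hS hxy hxz hyz hx
    by_cases hy : F y = {y}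
    · refine key y x z ?_ hxy.symm hyz hxz hy
      rw [hS]
      exact Finset.insert_comm x y {z}
    by_cases hz : F z = {z}
    · refine key z x y ?_ hxz.symm hyz.symm hxy hz
      rw [hS]
      ext q
      simp only [Finset.mem_insert, Finset.mem_singleton]
      tauto
    · exfalso
      have h7 : Sk ⊆ nf := by
        intro q hq
        refine (hnfm q).2 ⟨hq, ?_⟩
        rw [hS] at hq
        simp only [Finset.mem_insert, Finset.mem_singleton] at hq
        rcases hq with rfl | rfl | rfl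
        · exact hx
        · exact hy
        · exact hz
      have h8 := Finset.card_le_card h7
      omega

end Pool.Agent.Helper43.LT
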