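import Pool.Agent.Helper43.LG.Links

/-!
# Links whose ends have disjoint windows

`L` is a subgroup with `16 K |L| ≤ |H|`, and `wd y` is a set of left cosets of `L` (the window of
the coset `y`) that meets only the windows of `K` cosets. There is a connected even set of links
`x — x c` between the left cosets of `H` such that the windows of different links are disjoint.
-/

set_option autoImplicit false

namespace Pool.Agent.Helper43.LT

open Finset Module Pool.Agent.H718C Pool.Agent.Helper43.LG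

variable {G : Type*} [Group G] [Fintype G] [DecidableEq G] {L : Subgroup G}
  [DecidableEq (G ⧸ L)]

/-- the windows of both ends of a link -/
def SW (wd : G ⧸ L → Finset (G ⧸ L)) {C : Finset G} (q : G × C) : Finset (G ⧸ L) :=
  wd (q.1 : G ⧸ L) ∪ wd ((q.1 * q.2 : G) : G ⧸ L)

omit [Fintype G] [DecidableEq G] in
theorem SW_meet {wd nb : G ⧸ L → Finset (G ⧸ L)}
    (hmeet : ∀ x y, ¬ Disjoint (wd x) (wd y) → x ∈ nb y) {C : Finset G} {a q : G × C}
    (h : ¬ Disjoint (SW wd a) (SW wd q)) :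
    (a.1 : G ⧸ L) ∈ SW nb q ∨ ((a.1 * a.2 : G) : G ⧸ L) ∈ SW nb q := by
  unfold SW at h ⊢
  rw [disjoint_union_left, disjoint_union_right, disjoint_union_right] at h
  rw [mem_union, mem_union]
  by_contra hn
  push Not at hn
  apply h
  refine ⟨⟨?_, ?_⟩, ?_, ?_⟩
  · by_contra h1; exact hn.1.1 (hmeet _ _ h1)
  · by_contra h1; exact hn.1.2 (hmeet _ _ h1)
  · by_contra h1; exact hn.2.1 (hmeet _ _ h1)
  · by_contra h1; exact hn.2.2 (hmeet _ _ h1)

theorem card_blocked {wd nb : G ⧸ L → Finset (G ⧸ L)} {K : ℕ} (hK : ∀ y, (nb y).card ≤ K)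
    (hmeet : ∀ x y, ¬ Disjoint (wd x) (wd y) → x ∈ nb y) {C : Finset G} (z0 : G × C)
    (B : Finset (G × C)) (hB : B.Nonempty) :
    Set.ncard {a : G × C | ¬ Disjoint (SW wd a) (SW wd z0 ∪ B.biUnion (SW wd))} ≤
      8 * K * C.card * Nat.card L * B.card := by
  classical
  set U := SW nb z0 ∪ B.biUnion (SW nb) with hU
  have h1 : {a : G × C | ¬ Disjoint (SW wd a) (SW wd z0 ∪ B.biUnion (SW wd))} ⊆
      ((((univ.filter (fun x : G => (x : G ⧸ L) ∈ U)) ×ˢ (univ : Finset C)).image
          (fun p => (p.1, p.2)) ∪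
        ((univ.filter (fun x : G => (x : G ⧸ L) ∈ U)) ×ˢ (univ : Finset C)).image
          (fun p => (p.1 * (p.2 : G)⁻¹, p.2)) : Finset (G × C)) : Set (G × C)) := by
    intro a ha
    simp only [Set.mem_ofPred_eq] at ha
    have h2 : (a.1 : G ⧸ L) ∈ U ∨ ((a.1 * a.2 : G) : G ⧸ L) ∈ U := by
      rw [disjoint_union_right, not_and_or] at ha
      rcases ha with ha | ha
      · rcases SW_meet hmeet ha with h | h
        · exact Or.inl (mem_union_left _ h)
        · exact Or.inr (mem_union_left _ h)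
      · rw [disjoint_biUnion_right] at ha
        push Not at ha
        obtain ⟨b, hb, hab⟩ := ha
        rcases SW_meet hmeet hab with h | h
        · exact Or.inl (mem_union_right _ (mem_biUnion.2 ⟨b, hb, h⟩))
        · exact Or.inr (mem_union_right _ (mem_biUnion.2 ⟨b, hb, h⟩))
    rw [mem_coe, mem_union, mem_image, mem_image]
    rcases h2 with h | h
    · exact Or.inl ⟨(a.1, a.2), mem_product.2 ⟨mem_filter.2 ⟨mem_univ _, h⟩, mem_univ _⟩, rfl⟩
    · refine Or.inr ⟨(a.1 * a.2, a.2), mem_product.2 ⟨mem_filter.2 ⟨mem_univ _, h⟩, mem_univ _⟩, ?_⟩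
      simp
  refine (Set.ncard_le_ncard h1 (Set.toFinite _)).trans ?_
  rw [Set.ncard_coe_finset]
  refine (card_union_le _ _).trans ?_
  refine (Nat.add_le_add card_image_le card_image_le).trans ?_
  rw [card_product, card_univ, Fintype.card_coe]
  have hSW : ∀ q : G × C, (SW nb q).card ≤ 2 * K := by
    intro q
    refine (card_union_le _ _).trans ?_
    have e1 := hK (q.1 : G ⧸ L)
    have e2 := hK ((q.1 * q.2 : G) : G ⧸ L)
    omega
  have h3 : U.card ≤ 4 * K * B.card := by
    have e1 : (B.biUnion (SW nb)).card ≤ B.card * (2 * K) :=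
      card_biUnion_le_card_mul _ _ _ (fun b _ => hSW b)
    have e2 := hSW z0
    have e3 := card_pos.2 hB
    have e4 : 2 * K ≤ B.card * (2 * K) := Nat.le_mul_of_pos_left _ e3
    rw [hU]
    refine (card_union_le _ _).trans ?_
    calc _ ≤ B.card * (2 * K) + B.card * (2 * K) := Nat.add_le_add (e2.trans e4) e1
      _ = 4 * K * B.card := by ring
  have h4 := card_cosets U
  have h5 : (univ.filter (fun x : G => (x : G ⧸ L) ∈ U)).card ≤ 4 * K * B.card * Nat.card L :=
    h4.trans (Nat.mul_le_mul_right _ h3)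
  calc _ = 2 * ((univ.filter (fun x : G => (x : G ⧸ L) ∈ U)).card * C.card) := by ring
    _ ≤ 2 * (4 * K * B.card * Nat.card L * C.card) :=
        Nat.mul_le_mul_left _ (Nat.mul_le_mul_right _ h5)
    _ = 8 * K * C.card * Nat.card L * B.card := by ring

/-- **The set of links.** -/
theorem exists_links (A : Set G) (hgen : Subgroup.closure A = ⊤) (H : Subgroup G)
    [Fintype (G ⧸ H)] [DecidableEq (G ⧸ H)] {K : ℕ} (hK0 : 0 < K)
    (hcard : 16 * K * Nat.card L ≤ Nat.card H) (wd nb : G ⧸ L → Finset (G ⧸ L))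
    (hself : ∀ y, y ∈ wd y) (hK : ∀ y, (nb y).card ≤ K)
    (hmeet : ∀ x y, ¬ Disjoint (wd x) (wd y) → x ∈ nb y) :
    ∃ (C : Finset G), (C : Set G) ⊆ A ∧ (∀ c ∈ C, c ∉ H) ∧ ∃ (F : Finset (G × C)),
      (∀ q ∈ F, ∀ q' ∈ F, q ≠ q' → Disjoint (SW wd q) (SW wd q')) ∧
      ∑ q ∈ F, vec (sv H C) (tv H C) q = 0 ∧
      ∀ P : Set (G ⧸ H), (∀ q ∈ F, sv H C q ∈ P ↔ tv H C q ∈ P) → P.Nonempty → P = Set.univ := by
  classical
  obtain ⟨C, hCA, hCgen, hCH, hC⟩ := exists_irred H A hgen
  refine ⟨C, hCA, hCH, ?_⟩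
  rcases Nat.eq_zero_or_pos C.card with h0 | h0
  · refine ⟨∅, by simp, by simp, fun P _ hne => conn_of_gen H C hCgen P ?_ hne⟩
    rintro ⟨x, c, hc⟩
    rw [card_eq_zero] at h0
    rw [h0] at hc
    simp at hc
  · have hL : 0 < Nat.card L := Nat.card_pos
    obtain ⟨F, hF1, hF2, hF3, -⟩ := two_trees (sv H C) (tv H C) (fun q : G × C => q)
      (SW wd) (8 * K * C.card * Nat.card L) (by positivity)
      (fun a => ⟨(a.1 : G ⧸ L), mem_union_left _ (hself _)⟩) (by
        intro U hU
        have h1 := cut_ineq H C (16 * K * C.card * Nat.card L) (by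
          intro S hHS hS
          refine le_trans ?_ (hC S hHS hS)
          calc 16 * K * C.card * Nat.card L = C.card * (16 * K * Nat.card L) := by ring
            _ ≤ _ := Nat.mul_le_mul_left _ hcard) U hU
        have h2 : {a : G × C | ∃ q, q = a ∧ vec (sv H C) (tv H C) q ∉ U} =
            {q : G × C | vec (sv H C) (tv H C) q ∉ U} := by
          ext a
          simp
        rw [h2, show 2 * (8 * K * C.card * Nat.card L) = 16 * K * C.card * Nat.card L by ring]
        exact h1) (by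
        intro z0 B hB _ _
        exact card_blocked hK hmeet z0 B hB)
    refine ⟨F, hF1, hF2, fun P hP hne => conn_of_gen H C hCgen P ?_ hne⟩
    exact cut_of_span _ _ F hF3 P hP

end Pool.Agent.Helper43.LT
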