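import Pool.Agent.Helper43.LT.Cover
import Pool.Agent.Helper43.LT.Links
import Pool.Agent.Helper43.LG.Group

/-!
# Trees of cosets in a group
-/

set_option autoImplicit false

namespace Pool.Agent.Helper43.LT

open Equiv Finset Pool.Agent.H718C Pool.Agent.Helper43.LG

variable {G : Type*} [Group G]

/-- the number of children -/
theorem exists_window [Finite G] {L H : Subgroup G} (hLH : L ≤ H) {N : ℕ} {w : ℕ → G}
    (hw : Reps L H N w) (hN : 0 < N) {par : ℕ → ℕ} (hpar : ∀ j, 0 < j → j < N → par j < j)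
    (htwo : ∀ u < N, ((Finset.range N).filter (fun j => 0 < j ∧ par j = u)).card ≤ 2) :
    ∃ wd nb : G ⧸ L → Finset (G ⧸ L), (∀ y, y ∈ wd y) ∧ (∀ y, (nb y).card ≤ 5) ∧
      (∀ x y, ¬ Disjoint (wd x) (wd y) → x ∈ nb y) ∧
      ∀ (x : G) (i : ℕ), i < N → x ∈ Dc L w ((x : G ⧸ H).out) i →
        ∀ j, (j = i ∨ (0 < i ∧ j = par i)) →
          (((x : G ⧸ H).out * w j : G) : G ⧸ L) ∈ wd (x : G ⧸ L) := by
  classical
  have : Fintype (G ⧸ L) := Fintype.ofFinite _
  have hout : ∀ x : G, ((x : G ⧸ H).out)⁻¹ * x ∈ H := by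
    intro x
    rw [← QuotientGroup.eq]
    exact QuotientGroup.out_eq' _
  -- the base of a coset of `L`
  set base : G ⧸ L → G := fun y => (((y.out : G) : G ⧸ H)).out with hbase
  have hex : ∀ y : G ⧸ L, ∃ i, i < N ∧ ((base y * w i : G) : G ⧸ L) = y := by
    intro y
    obtain ⟨i, hi, h⟩ := hw.all _ (hout y.out)
    refine ⟨i, hi, ?_⟩
    rw [← QuotientGroup.out_eq' y, QuotientGroup.eq, QuotientGroup.out_eq' y, mul_inv_rev,
      mul_assoc]
    exact h
  choose idx idx1 idx2 using hex
  set pr : ℕ → ℕ := fun j => if j = 0 then 0 else par j with hpr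
  have pr0 : pr 0 = 0 := if_pos rfl
  have prp : ∀ j, 0 < j → pr j = par j := fun j hj => if_neg (by omega)
  have prN : ∀ j, j < N → pr j < N := by
    intro j hj
    rcases Nat.eq_zero_or_pos j with h | h
    · rw [h, pr0]; exact hN
    · rw [prp j h]
      have := hpar j h hj
      omega
  set wd : G ⧸ L → Finset (G ⧸ L) := fun y => {y, ((base y * w (pr (idx y)) : G) : G ⧸ L)}
    with hwd
  -- elements of the windows
  have hwd' : ∀ y z, z ∈ wd y → ∃ a, a < N ∧ (a = idx y ∨ a = pr (idx y)) ∧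
      z = ((base y * w a : G) : G ⧸ L) := by
    intro y z hz
    simp only [hwd, mem_insert, mem_singleton] at hz
    rcases hz with rfl | rfl
    · exact ⟨idx z, idx1 z, Or.inl rfl, (idx2 z).symm⟩
    · exact ⟨pr (idx y), prN _ (idx1 y), Or.inr rfl, rfl⟩
  -- equal cosets have equal base and index
  have hbb : ∀ (x y : G ⧸ L) (a b : ℕ), a < N → b < N →
      ((base x * w a : G) : G ⧸ L) = ((base y * w b : G) : G ⧸ L) → base x = base y ∧ a = b := by
    intro x y a b ha hb h
    rw [QuotientGroup.eq] at h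
    have h4 : (base x)⁻¹ * base y ∈ H := by
      have e : (base x)⁻¹ * base y = w a * ((base x * w a)⁻¹ * (base y * w b)) * (w b)⁻¹ := by
        group
      rw [e]
      exact H.mul_mem (H.mul_mem (hw.mem a ha) (hLH h)) (H.inv_mem (hw.mem b hb))
    have h5 : base x = base y := by
      have a1 : ((base x : G) : G ⧸ H) = ((x.out : G) : G ⧸ H) := QuotientGroup.out_eq' _
      have a2 : ((base y : G) : G ⧸ H) = ((y.out : G) : G ⧸ H) := QuotientGroup.out_eq' _
      have a3 : ((base x : G) : G ⧸ H) = ((base y : G) : G ⧸ H) := QuotientGroup.eq.2 h4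
      rw [a1, a2] at a3
      simp only [hbase]
      rw [a3]
    refine ⟨h5, hw.inj a b ha hb ?_⟩
    rw [← h5] at h
    have e : (w a)⁻¹ * w b = (base x * w a)⁻¹ * (base x * w b) := by group
    rw [e]
    exact h
  set ch : ℕ → Finset ℕ := fun u => (Finset.range N).filter (fun j => 0 < j ∧ par j = u) with hch
  refine ⟨wd, fun y => univ.filter (fun x => ¬ Disjoint (wd x) (wd y)), ?_, ?_, ?_, ?_⟩
  · intro y
    simp [hwd]
  · intro y
    set I : Finset ℕ := ({idx y, pr (idx y)} ∪ ch (idx y)) ∪ (ch (pr (idx y))).erase (idx y)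
      with hI
    have hsub : (univ.filter (fun x => ¬ Disjoint (wd x) (wd y))) ⊆
        I.image (fun i => ((base y * w i : G) : G ⧸ L)) := by
      intro x hx
      have hx' := (mem_filter.1 hx).2
      rw [not_disjoint_iff] at hx'
      obtain ⟨z, hz1, hz2⟩ := hx'
      obtain ⟨a, ha, ha', rfl⟩ := hwd' x z hz1
      obtain ⟨b, hb, hb', hab⟩ := hwd' y _ hz2
      obtain ⟨h1, rfl⟩ := hbb x y a b ha hb hab
      rw [mem_image]
      refine ⟨idx x, ?_, by rw [← h1]; exact idx2 x⟩
      have hxN := idx1 x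
      have hchm : ∀ u i, i < N → 0 < i → par i = u → i ∈ ch u := fun u i h1 h2 h3 =>
        mem_filter.2 ⟨mem_range.2 h1, h2, h3⟩
      rw [hI, mem_union, mem_union, mem_insert, mem_singleton]
      rcases ha' with e1 | e1 <;> rcases hb' with e2 | e2
      · left; left; left
        rw [← e1, e2]
      · left; left; right
        rw [← e1, e2]
      · rcases Nat.eq_zero_or_pos (idx x) with h0 | h0
        · left; left; left
          rw [h0] at e1 ⊢
          rw [pr0] at e1
          rw [← e1, e2]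
        · left; right
          rw [prp _ h0] at e1
          exact hchm _ _ hxN h0 (by rw [← e1, e2])
      · rcases Nat.eq_zero_or_pos (idx x) with h0 | h0
        · left; left; right
          rw [h0] at e1 ⊢
          rw [pr0] at e1
          rw [← e1, e2]
        · by_cases hxy : idx x = idx y
          · left; left; left; exact hxy
          · right
            rw [prp _ h0] at e1
            exact mem_erase.2 ⟨hxy, hchm _ _ hxN h0 (by rw [← e1, e2])⟩
    refine (card_le_card hsub).trans (card_image_le.trans ?_)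
    have c1 : (ch (idx y)).card ≤ 2 := htwo _ (idx1 y)
    have c2 : (ch (pr (idx y))).card ≤ 2 := htwo _ (prN _ (idx1 y))
    rcases Nat.eq_zero_or_pos (idx y) with h0 | h0
    · have e1 : ({idx y, pr (idx y)} : Finset ℕ) = {0} := by
        rw [h0, pr0]; simp
      have e2 : ((ch (pr (idx y))).erase (idx y)).card ≤ 2 := (card_le_card (erase_subset _ _)).trans c2
      rw [hI, e1]
      refine (card_union_le _ _).trans ?_
      have e3 := card_union_le ({0} : Finset ℕ) (ch (idx y))
      rw [card_singleton] at e3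
      omega
    · have e2 : ((ch (pr (idx y))).erase (idx y)).card ≤ 1 := by
        rw [card_erase_of_mem]
        · omega
        · exact mem_filter.2 ⟨mem_range.2 (idx1 y), h0, (prp _ h0).symm⟩
      rw [hI]
      refine (card_union_le _ _).trans ?_
      have e3 := card_union_le ({idx y, pr (idx y)} : Finset ℕ) (ch (idx y))
      have e4 : ({idx y, pr (idx y)} : Finset ℕ).card ≤ 2 := card_le_two
      omega
  · intro x y h
    exact mem_filter.2 ⟨mem_univ _, h⟩
  · intro x i hi hx j hj
    have h1 : (x : G ⧸ L) = (((x : G ⧸ H).out * w i : G) : G ⧸ L) := (QuotientGroup.eq.2 hx).symm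
    have h2 : base (x : G ⧸ L) = (x : G ⧸ H).out := by
      have h3 : ((x : G ⧸ L).out)⁻¹ * x ∈ L := by
        rw [← QuotientGroup.eq]
        exact QuotientGroup.out_eq' _
      have h4 : (((x : G ⧸ L).out : G) : G ⧸ H) = (x : G ⧸ H) := QuotientGroup.eq.2 (hLH h3)
      simp only [hbase]
      rw [h4]
    have h3 : idx (x : G ⧸ L) = i := by
      refine (hbb (x : G ⧸ L) (x : G ⧸ L) _ i (idx1 _) hi ?_).2
      rw [idx2, h2]
      exact h1
    have h4 : ∀ z, z = (x : G ⧸ L) ∨ z = ((base (x : G ⧸ L) * w (pr (idx (x : G ⧸ L))) : G) : G ⧸ L)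
        → z ∈ wd (x : G ⧸ L) := by
      intro z hz
      simp only [hwd, mem_insert, mem_singleton]
      exact hz
    apply h4
    rcases hj with rfl | ⟨hj0, rfl⟩
    · exact Or.inl h1.symm
    · right
      rw [h2, h3, prp i hj0]

/-- **Trees of cosets.** -/
theorem group_tree [Finite G] (A : Set G) (hA : ∀ x ∈ A, x⁻¹ ∈ A)
    (hgen : Subgroup.closure A = ⊤) {L H : Subgroup G} (hLH : L ≤ H) {N : ℕ} {w : ℕ → G}
    (hw : Reps L H N w) (h80 : 80 ≤ N) {par : ℕ → ℕ} {c : ℕ → G}
    (hcells : ∀ g, TCells (fun x y => x⁻¹ * y ∈ A) N (Dc L w g) par (fun j x => x * c j)) :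
    ∃ σ : Perm G, (∀ x, x⁻¹ * σ x ∈ A) ∧ ∀ x y, σ.SameCycle x y := by
  classical
  have : Fintype G := Fintype.ofFinite G
  have : Fintype (G ⧸ H) := Fintype.ofFinite _
  have hN : 0 < N := by omega
  have h80' : 16 * 5 * Nat.card L ≤ Nat.card H :=
    (Nat.mul_le_mul_right _ h80).trans (card_le_of_reps hLH hw)
  obtain ⟨wd, nb, hself, hK, hmeet, hval⟩ := exists_window hLH hw hN (hcells 1).par_lt
    (hcells 1).two
  obtain ⟨C, hCA, hCH, F, hF1, hF2, hF3⟩ := exists_links A hgen H (by norm_num) h80' wd nb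
    hself hK hmeet
  let el : F × Bool → G := fun y => if y.2 then (y.1 : G × C).1 * (y.1 : G × C).2 else
    (y.1 : G × C).1
  have elf : ∀ q : F, el (q, false) = (q : G × C).1 := fun q => rfl
  have elt : ∀ q : F, el (q, true) = (q : G × C).1 * (q : G × C).2 := fun q => rfl
  have hat : ∀ y : F × Bool, ((el y : G) : G ⧸ H) =
      (if y.2 then tv H C (y.1 : G × C) else sv H C (y.1 : G × C)) := by
    rintro ⟨q, β⟩
    cases β <;> rfl
  have hends : ∀ q : F, ((el (q, false) : G) : G ⧸ H) ≠ ((el (q, true) : G) : G ⧸ H) := by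
    intro q h
    rw [elf, elt, QuotientGroup.eq, inv_mul_cancel_left] at h
    exact hCH _ (q : G × C).2.2 h
  -- windows of the ends
  have hwin : ∀ y : F × Bool, wd ((el y : G) : G ⧸ L) ⊆ SW wd (y.1 : G × C) := by
    rintro ⟨q, β⟩
    cases β
    · exact subset_union_left
    · exact subset_union_right
  have hdis : ∀ y y' : F × Bool, y.1 ≠ y'.1 →
      Disjoint (wd ((el y : G) : G ⧸ L)) (wd ((el y' : G) : G ⧸ L)) := by
    intro y y' h
    have := hF1 _ y.1.2 _ y'.1.2 (fun e => h (Subtype.ext e))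
    exact (this.mono_left (hwin y)).mono_right (hwin y')
  have hinj : Function.Injective el := by
    rintro ⟨q, β⟩ ⟨q', β'⟩ h
    by_cases hq : q = q'
    · subst hq
      cases β <;> cases β'
      · rfl
      · exact absurd (congrArg (fun z : G => (z : G ⧸ H)) h) (hends q)
      · exact absurd (congrArg (fun z : G => (z : G ⧸ H)) h).symm (hends q)
      · rfl
    · exfalso
      have := hdis (q, β) (q', β') hq
      rw [h, disjoint_self_iff_empty] at this
      have h0 := hself ((el (q', β') : G) : G ⧸ L)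
      rw [this] at h0
      simp at h0
  let T : Set G := Set.range el
  let fl : F × Bool → F × Bool := fun y => (y.1, !y.2)
  have hflfl : ∀ y, fl (fl y) = y := by
    rintro ⟨q, β⟩
    simp [fl]
  have hfl : ∀ y, fl y ≠ y := by
    rintro ⟨q, β⟩ h
    have := congrArg Prod.snd h
    simp [fl] at this
  let μ : G → G := fun x => if h : ∃ y, el y = x then el (fl h.choose) else x
  have hμ0 : ∀ y, μ (el y) = el (fl y) := by
    intro y
    have h : ∃ y', el y' = el y := ⟨y, rfl⟩
    have h1 : μ (el y) = el (fl h.choose) := dif_pos h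
    rw [h1, hinj h.choose_spec]
  have hμ : ∀ p ∈ T, μ p ∈ T ∧ μ (μ p) = p ∧ μ p ≠ p ∧ p⁻¹ * μ p ∈ A := by
    rintro _ ⟨y, rfl⟩
    rw [hμ0]
    refine ⟨⟨_, rfl⟩, by rw [hμ0, hflfl], fun h => hfl y (hinj h), ?_⟩
    rcases y with ⟨q, β⟩
    cases β
    · change (el (q, false))⁻¹ * el (q, true) ∈ A
      rw [elf, elt, inv_mul_cancel_left]
      exact hCA (q : G × C).2.2
    · change (el (q, true))⁻¹ * el (q, false) ∈ A
      rw [elf, elt]
      have e : ((q : G × C).1 * ((q : G × C).2 : G))⁻¹ * (q : G × C).1 =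
        (((q : G × C).2 : G))⁻¹ := by group
      rw [e]
      exact hA _ (hCA (q : G × C).2.2)
  refine assemble (fun x : G => (x : G ⧸ H)) (fun x y => x⁻¹ * y ∈ A) ?_ T μ hμ ?_ ?_ ?_
  · intro x y h
    have := hA _ h
    rwa [mul_inv_rev, inv_inv] at this
  · -- the covering property
    intro v
    set g := v.out with hg
    have hgv : (g : G ⧸ H) = v := QuotientGroup.out_eq' _
    have hpart : ∀ x : G, x ∈ Un (Dc L w g) N ↔ (x : G ⧸ H) = v := by
      intro x
      have h1 : x ∈ Un (Dc L w g) N ↔ x ∈ LG.Un (Dc L w g) (N - 1) := by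
        constructor
        · rintro ⟨j, hj, hx⟩
          exact ⟨j, by omega, hx⟩
        · rintro ⟨j, hj, hx⟩
          exact ⟨j, by omega, hx⟩
      rw [h1, Un_cells hLH hw hN g x, ← QuotientGroup.eq, hgv]
      exact eq_comm
    have hsep : ∀ i j, i < N → j < N →
        (i = j ∨ (0 < j ∧ par j = i) ∨ (0 < i ∧ 0 < j ∧ par i = par j)) →
        ∀ p ∈ T, ∀ q ∈ T, p ∈ Dc L w g i → q ∈ Dc L w g j → p = q := by
      intro i j hi hj hij p hp q hq hpD hqD
      obtain ⟨y, rfl⟩ := hp
      obtain ⟨y', rfl⟩ := hq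
      have hpv : ((el y : G) : G ⧸ H) = v := (hpart _).1 ⟨i, hi, hpD⟩
      have hqv : ((el y' : G) : G ⧸ H) = v := (hpart _).1 ⟨j, hj, hqD⟩
      by_cases hyy : y.1 = y'.1
      · rcases y with ⟨q1, β⟩
        rcases y' with ⟨q2, β'⟩
        have hq12 : q1 = q2 := hyy
        subst hq12
        cases β <;> cases β'
        · rfl
        · exact absurd (hpv.trans hqv.symm) (hends q1)
        · exact absurd (hqv.trans hpv.symm) (hends q1)
        · rfl
      · exfalso
        have hd := hdis y y' hyy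
        have h1 := hval (el y) i hi (by rw [hpv]; exact hpD)
        have h2 := hval (el y') j hj (by rw [hqv]; exact hqD)
        rw [hpv] at h1
        rw [hqv] at h2
        rw [disjoint_left] at hd
        rcases hij with rfl | ⟨hj0, rfl⟩ | ⟨hi0, hj0, hij⟩
        · exact hd (h1 i (Or.inl rfl)) (h2 i (Or.inl rfl))
        · exact hd (h1 _ (Or.inl rfl)) (h2 _ (Or.inr ⟨hj0, rfl⟩))
        · exact hd (h1 _ (Or.inr ⟨hi0, rfl⟩)) (h2 _ (Or.inr ⟨hj0, hij⟩))
    refine star_of_cyc _ _ _ _ ?_ ?_
    · intro a b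
      obtain ⟨c, hc, h1, h2⟩ := (hcells g).three 0 hN a b
      exact ⟨c, (hpart c).1 ⟨0, hN, hc⟩, h1, h2⟩
    · intro M hM
      have hU : Un (Dc L w g) N = {x : G | (x : G ⧸ H) = v} := by
        ext x
        exact hpart x
      have hS : {x : G | x ∈ T ∧ (x : G ⧸ H) = v} = {x : G | x ∈ T ∧ x ∈ Un (Dc L w g) N} := by
        rw [hU]
        rfl
      rw [hS] at hM
      obtain ⟨l, hl⟩ := tree_cyc (hcells g) hN hsep hM
      rw [hU] at hl
      exact ⟨l, hl⟩
  · -- parity
    intro v
    have h1 := even_half (sv H C) (tv H C) F hF2 v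
    have h2 : {x : G | x ∈ T ∧ (x : G ⧸ H) = v} =
        ((univ.filter (fun y : F × Bool => (if y.2 then tv H C y.1 else sv H C y.1) = v)).image
          el : Finset G) := by
      ext x
      simp only [Set.mem_ofPred_eq, coe_image, coe_filter, mem_univ, true_and, Set.mem_image]
      constructor
      · rintro ⟨⟨y, rfl⟩, hm⟩
        exact ⟨y, by rw [← hat]; exact hm, rfl⟩
      · rintro ⟨y, hy, rfl⟩
        exact ⟨⟨y, rfl⟩, by rw [hat]; exact hy⟩
    rw [h2, Set.ncard_coe_finset, card_image_of_injective _ hinj]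
    exact h1
  · -- connectivity
    intro P hP hne
    refine hF3 P ?_ hne
    intro q hq
    have h1 := hP (el (⟨q, hq⟩, false)) ⟨_, rfl⟩
    have h2 := hP (el (⟨q, hq⟩, true)) ⟨_, rfl⟩
    rw [hμ0] at h1 h2
    exact ⟨h1, h2⟩

end Pool.Agent.Helper43.LT
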