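import Pool.Agent.Helper43.LG.Seg

/-!
# Cyclic lists: insertion of a path between two neighbours
-/

set_option autoImplicit false

namespace Pool.Agent.Helper43.LT

open Pool.Agent.Helper43.LG

variable {X : Type*}

/-- `u`, `v` are neighbours in the cyclic list `l` -/
def CA (l : List X) (u v : X) : Prop :=
  Nb l u v ∨ (l.head? = some u ∧ l.getLast? = some v) ∨ (l.head? = some v ∧ l.getLast? = some u)

theorem CA.symm {l : List X} {u v : X} (h : CA l u v) : CA l v u := by
  rcases h with h | h | h
  · exact Or.inl h.symm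
  · exact Or.inr (Or.inr h)
  · exact Or.inr (Or.inl h)

theorem CA.rotate {l1 l2 : List X} (h1 : l1 ≠ []) (h2 : l2 ≠ []) {u v : X}
    (h : CA (l1 ++ l2) u v) : CA (l2 ++ l1) u v := by
  obtain ⟨a, ha⟩ := exists_head h1
  obtain ⟨x, hx⟩ := exists_last h1
  obtain ⟨y, hy⟩ := exists_head h2
  obtain ⟨b, hb⟩ := exists_last h2
  have e3 : (l2 ++ l1).head? = some y := by rw [List.head?_append_of_ne_nil _ h2, hy]
  have e4 : (l2 ++ l1).getLast? = some x := by rw [List.getLast?_append_of_ne_nil _ h1, hx]
  rcases h with hn | ⟨h3, h4⟩ | ⟨h3, h4⟩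
  · rcases hn.split with hn | hn | ⟨h3, h4⟩ | ⟨h3, h4⟩
    · exact Or.inl (hn.right _)
    · exact Or.inl (hn.left _)
    · right; right
      rw [e3, e4, ← hy, ← hx]
      exact ⟨h4, h3⟩
    · right; left
      rw [e3, e4, ← hy, ← hx]
      exact ⟨h4, h3⟩
  · left
    rw [List.head?_append_of_ne_nil _ h1] at h3
    rw [List.getLast?_append_of_ne_nil _ h2] at h4
    exact (Nb.junction h4 h3).symm
  · left
    rw [List.head?_append_of_ne_nil _ h1] at h3
    rw [List.getLast?_append_of_ne_nil _ h2] at h4
    exact Nb.junction h4 h3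

theorem CA.reverse {l : List X} {u v : X} (h : CA l u v) : CA l.reverse u v := by
  rcases h with h | h | h
  · exact Or.inl h.rev
  · right; right
    rw [List.head?_reverse, List.getLast?_reverse]
    exact ⟨h.2, h.1⟩
  · right; left
    rw [List.head?_reverse, List.getLast?_reverse]
    exact ⟨h.2, h.1⟩

theorem CA.mem_left {l : List X} {u v : X} (h : CA l u v) : u ∈ l := by
  rcases h with h | h | h
  · exact h.mem_left
  · exact List.mem_of_mem_head? h.1
  · exact List.mem_of_mem_getLast? h.2

theorem CA.mem_right {l : List X} {u v : X} (h : CA l u v) : v ∈ l := h.symm.mem_left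

/-- bringing a pair of neighbours to the ends -/
theorem CA.norm {l : List X} {a b : X} (h : CA l a b) (hl : 3 ≤ l.length) (hnd : l.Nodup) :
    ∃ l' : List X, l'.Nodup ∧ 3 ≤ l'.length ∧ (∀ z, z ∈ l' ↔ z ∈ l) ∧
      (∀ u v, CA l' u v ↔ CA l u v) ∧ l'.head? = some b ∧ l'.getLast? = some a := by
  have key : ∀ k : List X, k.Nodup → 3 ≤ k.length → (∀ z, z ∈ k ↔ z ∈ l) →
      (∀ u v, CA k u v ↔ CA l u v) → [a, b] <:+: k →
      ∃ l' : List X, l'.Nodup ∧ 3 ≤ l'.length ∧ (∀ z, z ∈ l' ↔ z ∈ l) ∧
      (∀ u v, CA l' u v ↔ CA l u v) ∧ l'.head? = some b ∧ l'.getLast? = some a := by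
    rintro k h1 h2 h3 h4 ⟨s, t, hst⟩
    have e : k = (s ++ [a]) ++ (b :: t) := by rw [← hst]; simp
    subst e
    refine ⟨(b :: t) ++ (s ++ [a]), ?_, ?_, ?_, ?_, ?_, ?_⟩
    · exact (List.perm_append_comm.nodup_iff).1 h1
    · rw [List.length_append, Nat.add_comm, ← List.length_append]
      exact h2
    · intro z
      rw [← h3 z]
      exact List.perm_append_comm.mem_iff
    · intro u v
      rw [← h4 u v]
      exact ⟨fun h => h.rotate (by simp) (by simp), fun h => h.rotate (by simp) (by simp)⟩
    · simp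
    · rw [List.getLast?_append_of_ne_nil _ (by simp)]
      simp
  rcases h with (h | h) | h | h
  · exact key l hnd hl (fun _ => Iff.rfl) (fun _ _ => Iff.rfl) h
  · refine key l.reverse (List.nodup_reverse.2 hnd) (by rw [List.length_reverse]; exact hl)
      (fun z => List.mem_reverse) (fun u v => ⟨fun h => ?_, fun h => h.reverse⟩) ?_
    · have := h.reverse
      rwa [List.reverse_reverse] at this
    · have := List.reverse_infix.2 h
      simpa using this
  · refine ⟨l.reverse, List.nodup_reverse.2 hnd, by rw [List.length_reverse]; exact hl,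
      fun z => List.mem_reverse, fun u v => ⟨fun h => ?_, fun h => h.reverse⟩, ?_, ?_⟩
    · have := h.reverse
      rwa [List.reverse_reverse] at this
    · rw [List.head?_reverse]; exact h.2
    · rw [List.getLast?_reverse]; exact h.1
  · exact ⟨l, hnd, hl, fun _ => Iff.rfl, fun _ _ => Iff.rfl, h.1, h.2⟩

/-- the ends of a list without repetition are not neighbours in it -/
theorem not_nb_ends {l : List X} (hl : 3 ≤ l.length) (hnd : l.Nodup) {a b : X}
    (hb : l.head? = some b) (ha : l.getLast? = some a) : ¬ Nb l a b := by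
  have e1 : l[0]'(by omega) = b := by
    rw [List.head?_eq_getElem?, List.getElem?_eq_getElem (by omega)] at hb
    exact Option.some.inj hb
  have e2 : l[l.length - 1]'(by omega) = a := by
    rw [List.getLast?_eq_getElem?, List.getElem?_eq_getElem (by omega)] at ha
    exact Option.some.inj ha
  have key : ∀ u v, [u, v] <:+: l → ∃ i, ∃ hi : i + 1 < l.length, l[i]'(by omega) = u ∧
      l[i + 1]'hi = v := by
    rintro u v ⟨s, t, hst⟩
    have hi : s.length + 1 < l.length := by
      rw [← hst]; simp
    exact ⟨s.length, hi, by simp [← hst], by simp [← hst]⟩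
  rintro (h | h)
  · obtain ⟨i, hi, h1, h2⟩ := key _ _ h
    have := (hnd.getElem_inj_iff).1 (h2.trans e1.symm)
    omega
  · obtain ⟨i, hi, h1, h2⟩ := key _ _ h
    have h3 := (hnd.getElem_inj_iff).1 (h1.trans e1.symm)
    have h4 := (hnd.getElem_inj_iff).1 (h2.trans e2.symm)
    omega

/-- neighbours in a list without repetition are different -/
theorem Nb.ne {l : List X} (hnd : l.Nodup) {u v : X} (h : Nb l u v) : u ≠ v := by
  rintro rfl
  rcases h with ⟨s, t, hst⟩ | ⟨s, t, hst⟩ <;>
  · rw [← hst] at hnd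
    simp [List.nodup_append] at hnd

theorem CA.ne {l : List X} (hl : 3 ≤ l.length) (hnd : l.Nodup) {u v : X} (h : CA l u v) :
    u ≠ v := by
  have key : ∀ a b, l.head? = some a → l.getLast? = some b → a ≠ b := by
    rintro a b ha hb rfl
    rw [List.head?_eq_getElem?, List.getElem?_eq_getElem (by omega)] at ha
    rw [List.getLast?_eq_getElem?, List.getElem?_eq_getElem (by omega)] at hb
    have := (hnd.getElem_inj_iff).1 ((Option.some.inj ha).trans (Option.some.inj hb).symm)
    omega
  rcases h with h | h | h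
  · exact Nb.ne hnd h
  · exact key _ _ h.1 h.2
  · exact (key _ _ h.1 h.2).symm

/-- **Insertion.** -/
theorem exists_insert {l : List X} (hl : 3 ≤ l.length) (hnd : l.Nodup) {a b : X} (hab : CA l a b)
    {h : List X} (hh : h.Nodup) (hd : ∀ z ∈ h, z ∉ l) {c d : X} (hc : h.head? = some c)
    (hd' : h.getLast? = some d) :
    ∃ l' : List X, l'.Nodup ∧ 3 ≤ l'.length ∧ (∀ z, z ∈ l' ↔ z ∈ l ∨ z ∈ h) ∧
      ∀ u v, CA l' u v ↔ (CA l u v ∧ s(u, v) ≠ s(a, b)) ∨ Nb h u v ∨ s(u, v) = s(a, c) ∨
        s(u, v) = s(d, b) := by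
  obtain ⟨k, h1, h2, h3, h4, h5, h6⟩ := hab.norm hl hnd
  have hk : k ≠ [] := by
    rintro rfl
    simp at h2
  have hhne : h ≠ [] := by
    rintro rfl
    simp at hc
  refine ⟨k ++ h, ?_, ?_, ?_, ?_⟩
  · rw [List.nodup_append]
    refine ⟨h1, hh, ?_⟩
    rintro x hx y hy rfl
    exact hd x hy ((h3 x).1 hx)
  · rw [List.length_append]
    omega
  · intro z
    rw [List.mem_append, h3]
  · intro u v
    rw [← h4 u v]
    constructor
    · rintro (hn | ⟨e1, e2⟩ | ⟨e1, e2⟩)
      · rcases hn.split with hn | hn | ⟨e1, e2⟩ | ⟨e1, e2⟩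
        · left
          refine ⟨Or.inl hn, fun e => ?_⟩
          rw [Sym2.eq_iff] at e
          rcases e with ⟨rfl, rfl⟩ | ⟨rfl, rfl⟩
          · exact not_nb_ends h2 h1 h5 h6 hn
          · exact not_nb_ends h2 h1 h5 h6 hn.symm
        · exact Or.inr (Or.inl hn)
        · right; right; left
          rw [h6] at e1
          rw [hc] at e2
          rw [Option.some.inj e1, Option.some.inj e2]
        · right; right; left
          rw [h6] at e1
          rw [hc] at e2
          rw [Option.some.inj e1, Option.some.inj e2]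
          exact Sym2.eq_swap
      · right; right; right
        rw [List.head?_append_of_ne_nil _ hk, h5] at e1
        rw [List.getLast?_append_of_ne_nil _ hhne, hd'] at e2
        rw [Option.some.inj e1, Option.some.inj e2]
        exact Sym2.eq_swap
      · right; right; right
        rw [List.head?_append_of_ne_nil _ hk, h5] at e1
        rw [List.getLast?_append_of_ne_nil _ hhne, hd'] at e2
        rw [Option.some.inj e1, Option.some.inj e2]
    · rintro (⟨hn, hne⟩ | hn | e | e)
      · rcases hn with hn | ⟨e1, e2⟩ | ⟨e1, e2⟩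
        · exact Or.inl (hn.left _)
        · exfalso
          apply hne
          rw [h5] at e1
          rw [h6] at e2
          rw [Option.some.inj e1, Option.some.inj e2]
          exact Sym2.eq_swap
        · exfalso
          apply hne
          rw [h5] at e1
          rw [h6] at e2
          rw [Option.some.inj e1, Option.some.inj e2]
      · exact Or.inl (hn.right _)
      · have hj : Nb (k ++ h) a c := Nb.junction h6 hc
        rw [Sym2.eq_iff] at e
        rcases e with ⟨rfl, rfl⟩ | ⟨rfl, rfl⟩
        · exact Or.inl hj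
        · exact Or.inl hj.symm
      · have e1 : (k ++ h).head? = some b := by rw [List.head?_append_of_ne_nil _ hk, h5]
        have e2 : (k ++ h).getLast? = some d := by
          rw [List.getLast?_append_of_ne_nil _ hhne, hd']
        rw [Sym2.eq_iff] at e
        rcases e with ⟨rfl, rfl⟩ | ⟨rfl, rfl⟩
        · exact Or.inr (Or.inr ⟨e1, e2⟩)
        · exact Or.inr (Or.inl ⟨e1, e2⟩)

/-- a neighbour in a path, other than its last element -/
theorem exists_nb_ne {h : List X} (hl : 3 ≤ h.length) (hnd : h.Nodup) {e y : X}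
    (he : h.getLast? = some e) (hy : y ∈ h) (hye : y ≠ e) : ∃ z, Nb h y z ∧ z ≠ e := by
  obtain ⟨i, hi, rfl⟩ := List.getElem_of_mem hy
  have e2 : h[h.length - 1]'(by omega) = e := by
    rw [List.getLast?_eq_getElem?, List.getElem?_eq_getElem (by omega)] at he
    exact Option.some.inj he
  have hin : ∀ j (hj : j + 1 < h.length), [h[j]'(by omega), h[j + 1]'hj] <:+: h := by
    intro j hj
    refine ⟨h.take j, h.drop (j + 2), ?_⟩
    rw [List.append_assoc]
    conv_rhs => rw [← List.take_append_drop j h]
    congr 1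
    rw [List.cons_append, List.cons_append, List.nil_append]
    rw [List.drop_eq_getElem_cons (by omega : j < h.length),
      List.drop_eq_getElem_cons (by omega : j + 1 < h.length)]
  rcases Nat.eq_zero_or_pos i with h0 | h0
  · subst h0
    refine ⟨h[1]'(by omega), Or.inl (hin 0 (by omega)), fun h3 => ?_⟩
    have := (hnd.getElem_inj_iff).1 (h3.trans e2.symm)
    omega
  · obtain ⟨j, rfl⟩ : ∃ j, i = j + 1 := ⟨i - 1, by omega⟩
    refine ⟨h[j]'(by omega), Or.inr (hin j (by omega)), fun h3 => ?_⟩
    have := (hnd.getElem_inj_iff).1 (h3.trans e2.symm)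
    omega

/-- a neighbour in a path -/
theorem exists_nb {h : List X} (hl : 2 ≤ h.length) {y : X} (hy : y ∈ h) : ∃ z, Nb h y z := by
  obtain ⟨i, hi, rfl⟩ := List.getElem_of_mem hy
  have hin : ∀ j (hj : j + 1 < h.length), [h[j]'(by omega), h[j + 1]'hj] <:+: h := by
    intro j hj
    refine ⟨h.take j, h.drop (j + 2), ?_⟩
    rw [List.append_assoc]
    conv_rhs => rw [← List.take_append_drop j h]
    congr 1
    rw [List.cons_append, List.cons_append, List.nil_append]
    rw [List.drop_eq_getElem_cons (by omega : j < h.length),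
      List.drop_eq_getElem_cons (by omega : j + 1 < h.length)]
  rcases Nat.eq_zero_or_pos i with h0 | h0
  · subst h0
    exact ⟨h[1]'(by omega), Or.inl (hin 0 (by omega))⟩
  · obtain ⟨j, rfl⟩ : ∃ j, i = j + 1 := ⟨i - 1, by omega⟩
    exact ⟨h[j]'(by omega), Or.inr (hin j (by omega))⟩

/-- two edges of a path -/
theorem two_edges {h : List X} (hl : 3 ≤ h.length) (hnd : h.Nodup) :
    ∃ a b c, Nb h a b ∧ Nb h b c ∧ a ≠ b ∧ b ≠ c ∧ a ≠ c := by
  match h, hl, hnd with
  | a :: b :: c :: t, _, hnd =>
    simp only [List.nodup_cons, List.mem_cons, not_or] at hnd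
    exact ⟨a, b, c, Or.inl ⟨[], c :: t, by simp⟩, Or.inl ⟨[a], t, by simp⟩, hnd.1.1, hnd.2.1.1,
      hnd.1.2.1⟩

end Pool.Agent.Helper43.LT
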