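import Pool.Agent.Helper43.LT.Main

/-!
# The induction along the tree: the main step
-/

set_option autoImplicit false

namespace Pool.Agent.Helper43.LT

open Pool.Agent.Helper43.LG

variable {X : Type*} {R : X → X → Prop} {N : ℕ} {D : ℕ → Set X} {par : ℕ → ℕ} {φ : ℕ → X → X}

theorem main_tree [Nonempty X] (hc : TCells R N D par φ) {T : Set X}
    (hsep : ∀ i j, i < N → j < N →
      (i = j ∨ (0 < j ∧ par j = i) ∨ (0 < i ∧ 0 < j ∧ par i = par j)) →
      ∀ p ∈ T, ∀ q ∈ T, p ∈ D i → q ∈ D j → p = q) :
    ∀ k, 1 ≤ k → k ≤ N → ∀ (S : Finset X) (M : X → X → Prop) (loc : X → ℕ) (F : X → Set X)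
      (need : ℕ → ℕ), Inv N D par T k S M loc F need →
      ∃ r l, Fine R D k (S : Set X) M F need r l := by
  classical
  intro k hk1
  induction k, hk1 using Nat.le_induction with
  | base =>
    intro hN S M loc F need hI
    obtain ⟨hn, hcase⟩ := hI.slots hc (k := 0) (by omega)
    have h0 : ∀ q ∈ S, loc q = 0 := fun q hq => by
      have := hI.loc_lt q hq
      omega
    rcases hcase with h | ⟨t, ht, -, h⟩ | ⟨i, hi, j, hj, hij, -, -, ho, hFj, hn1⟩ |
      ⟨p, hp, i, hi, j, hj, hpi, hpj, hij, -, -, -, ho, -⟩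
    · have hS : (S : Set X) = ∅ := by
        rw [Finset.coe_eq_empty, Finset.eq_empty_iff_forall_notMem]
        intro q hq
        exact h q hq (h0 q hq)
      have hM := hI.mat
      rw [hS] at hM ⊢
      exact base0 hc (by omega) hM hn
    · exfalso
      obtain ⟨v, hv⟩ := (hI.mat.dom t).1 ht
      have hvS : v ∈ S := (hI.mat.mem hv).2
      have hvt : v = t := by
        by_contra hne
        exact h v hvS hne (h0 v hvS)
      subst hvt
      exact hI.mat.irr _ hv
    · have hS : (S : Set X) = {i, j} := by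
        ext q
        rw [Set.mem_insert_iff, Set.mem_singleton_iff]
        constructor
        · intro hq
          by_contra hno
          push Not at hno
          exact ho q hq hno.1 hno.2 (h0 q hq)
        · rintro (rfl | rfl)
          · exact hi
          · exact hj
      have hM := hI.mat
      obtain ⟨v, hv⟩ := (hM.dom i).1 hi
      have hvS := (hM.mem hv).2
      rw [hS] at hM hvS ⊢
      have hvj : v = j := by
        rw [Set.mem_insert_iff, Set.mem_singleton_iff] at hvS
        rcases hvS with rfl | h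
        · exact absurd hv (hM.irr _)
        · exact h
      subst hvj
      obtain ⟨c, hc1⟩ := hI.ne i hi
      have hc2 : c ∈ D 0 := by
        have := hI.sub i hi hc1
        rwa [h0 i hi] at this
      obtain ⟨d, hd2, hdc, -⟩ := hc.three 0 (by omega) c c
      exact base2 hc (by omega) hM hij hv hc1 (by rw [hFj]; exact hd2) hc2 hd2 hdc.symm hn
    · exfalso
      have hM := hI.mat
      have hall : ∀ q, q ∈ S → q = p ∨ q = i ∨ q = j := by
        intro q hq
        by_contra hno
        push Not at hno
        exact ho q hq hno.1 hno.2.1 hno.2.2 (h0 q hq)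
      have key : ∀ a b c : X, a ≠ b → a ≠ c → b ≠ c → c ∈ S →
          (∀ q, q ∈ S → q = a ∨ q = b ∨ q = c) → M a b → False := by
        intro a b c hab hac hbc hcS hall hMab
        obtain ⟨v, hv⟩ := (hM.dom c).1 hcS
        rcases hall v (hM.mem hv).2 with rfl | rfl | rfl
        · exact hbc (hM.uniq _ _ _ hMab (hM.symm _ _ hv))
        · exact hac (hM.uniq _ _ _ (hM.symm _ _ hMab) (hM.symm _ _ hv))
        · exact hM.irr _ hv
      obtain ⟨v, hv⟩ := (hM.dom p).1 hp
      rcases hall v (hM.mem hv).2 with rfl | rfl | rfl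
      · exact hM.irr _ hv
      · exact key p v j hpi hpj hij hj hall hv
      · exact key p v i hpj hpi hij.symm hi (fun q hq => by
          rcases hall q hq with h | h | h
          · exact Or.inl h
          · exact Or.inr (Or.inr h)
          · exact Or.inr (Or.inl h)) hv
  | succ k hk ih =>
    intro hkN S M loc F need hI
    have h0 : 0 < k := by omega
    have hkN' : k < N := by omega
    have IH := ih (by omega)
    obtain ⟨hn, hcase⟩ := hI.slots hc hkN'
    have hM := hI.mat
    have hup : ∀ v, Function.update need (par k) (need (par k) + 1) v ≤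
        need v + (if v = par k then 1 else 0) := by
      intro v
      by_cases hv : v = par k
      · rw [if_pos hv, hv, Function.update_self]
      · rw [if_neg hv, Function.update_of_ne hv, add_zero]
    have hup0 : ∀ v, need v ≤ need v + (if v = par k then 1 else 0) := fun v => Nat.le_add_right _ _
    -- fixed slots are ports
    have hfixT : ∀ q ∈ S, loc q = k → F q = {q} → q ∈ T ∧ q ∈ D k := by
      intro q hq hl hF
      have hqD : q ∈ D k := by
        have := hI.sub q hq
        rw [hF, hl] at this
        exact this rfl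
      obtain ⟨c, hc1, hc2, -⟩ := hc.three k hkN' q q
      have hne : F q ≠ D (loc q) := by
        intro h
        rw [hF, hl] at h
        rw [← h] at hc1
        exact hc2 hc1
      rcases hI.cls q hq hne with ⟨h1, -⟩ | ⟨w, -, -, -, -, a, h1⟩
      · exact ⟨h1, hqD⟩
      · exfalso
        rw [hF, hl] at h1
        obtain ⟨c, hc1, hc2, hc3⟩ := hc.three k hkN' q a
        have : c ∈ D k \ {a} := ⟨hc1, hc3⟩
        rw [← h1] at this
        exact hc2 this
    -- other slots have two possible values
    have hothr : ∀ q ∈ S, loc q = k → F q ≠ {q} → ∀ s, ∃ e ∈ F q, e ≠ s := by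
      intro q hq hl hF s
      by_cases hfull : F q = D (loc q)
      · obtain ⟨c, hc1, hc2, -⟩ := hc.three k hkN' s s
        exact ⟨c, by rw [hfull, hl]; exact hc1, hc2⟩
      · rcases hI.cls q hq hfull with ⟨-, h1⟩ | ⟨w, -, -, -, -, a, h1⟩
        · exact absurd h1 hF
        · obtain ⟨c, hc1, hc2, hc3⟩ := hc.three k hkN' s a
          exact ⟨c, by rw [h1, hl]; exact ⟨hc1, hc3⟩, hc2⟩
    have hlocD : ∀ q ∈ S, loc q = k → F q ⊆ D k := fun q hq hl => by
      have := hI.sub q hq
      rwa [hl] at this
    have hpk := hc.par_lt k h0 hkN'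
    have hneP : ∀ a, (D (par k) \ {a}).Nonempty := by
      intro a
      obtain ⟨c, hc1, hc2, -⟩ := hc.three (par k) (by omega) a a
      exact ⟨c, hc1, hc2⟩
    have hneP' : (D (par k)).Nonempty := by
      obtain ⟨x⟩ := (inferInstance : Nonempty X)
      obtain ⟨c, hc1, -⟩ := hc.three (par k) (by omega) x x
      exact ⟨c, hc1⟩
    rcases hcase with h | ⟨t, ht, htk, h⟩ | ⟨i, hi, j, hj, hij, hik, hjk, ho, hFj, hn1⟩ |
      ⟨p, hp, i, hi, j, hj, hpi, hpj, hij, hpk', hik, hjk, ho, hFp, hFi, hFj, hn0⟩
    · -- no slots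
      obtain ⟨r, l, hF⟩ := IH _ _ _ _ _ (hI.stay hkN' (Finset.Subset.refl S) hM h hup)
      obtain ⟨l', h', hH⟩ := half0 hc h0 hkN' hM hF
      exact ⟨r, l', hH.close hn⟩
    · -- one slot
      by_cases hFt : F t = {t}
      · obtain ⟨htT, htD⟩ := hfixT t ht htk hFt
        obtain ⟨a0, ha0, ha0'⟩ := hc.surj k h0 hkN' t htD
        obtain ⟨r, l, hF⟩ := IH _ _ _ _ _ (hI.move hc hsep h0 hkN' (Finset.Subset.refl S) hM
          (t := t) h (F' := D (par k) \ {a0}) Set.sdiff_subset (hneP a0)
          (Or.inr ⟨⟨t, htT, htD⟩, a0, rfl⟩))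
        have hrt := hF.fin t ht
        rw [Function.update_self] at hrt
        obtain ⟨l', h', hH, -, -⟩ := half1 hc h0 hkN' (F := F) hM hF (t := t) (e := t) ht
          (by rw [Function.update_self]; exact Set.sdiff_subset)
          (fun q hq => by rw [Function.update_of_ne hq]) (by rw [hFt]; rfl) htD
          (fun e => hrt.2 (hc.inj k h0 hkN' _ hrt.1 _ ha0 (by rw [ha0', ← e])))
        exact ⟨_, l', hH.close hn⟩
      · obtain ⟨r, l, hF⟩ := IH _ _ _ _ _ (hI.move hc hsep h0 hkN' (Finset.Subset.refl S) hM
          (t := t) h (F' := D (par k)) (Set.Subset.refl _) hneP' (Or.inl rfl))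
        obtain ⟨e, he1, he2⟩ := hothr t ht htk hFt (φ k (r t))
        obtain ⟨l', h', hH, -, -⟩ := half1 hc h0 hkN' (F := F) hM hF (t := t) (e := e) ht
          (by rw [Function.update_self])
          (fun q hq => by rw [Function.update_of_ne hq]) he1 (hlocD t ht htk he1) he2
        exact ⟨_, l', hH.close hn⟩
    · -- two slots
      have hcoe : ((S \ {i, j} : Finset X) : Set X) = (S : Set X) \ {i, j} := by
        rw [Finset.coe_sdiff, Finset.coe_insert, Finset.coe_singleton]
      have hsub : (S \ {i, j} : Finset X) ⊆ S := Finset.sdiff_subset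
      have hloc' : ∀ q ∈ (S \ {i, j} : Finset X), loc q ≠ k := by
        intro q hq
        rw [Finset.mem_sdiff, Finset.mem_insert, Finset.mem_singleton, not_or] at hq
        exact ho q hq.1 hq.2.1 hq.2.2
      by_cases hMij : M i j
      · have hM' := mat_er hM hMij
        obtain ⟨r, l, hF⟩ := IH _ _ _ _ _ (hI.stay hkN' hsub (by rw [hcoe]; exact hM') hloc' hup)
        rw [hcoe] at hF
        obtain ⟨l', h', hH⟩ := half0 hc h0 hkN' hM' hF
        obtain ⟨y, hy⟩ := hI.ne i hi
        have hyD := hlocD i hi hik hy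
        obtain ⟨z, hyz⟩ := exists_nb (by have := hH.len; omega) ((hH.mem y).2 hyD)
        have hzD := (hH.mem z).1 hyz.mem_right
        have hav : ∀ p ∈ (S : Set X) \ {i, j}, ∀ w ∈ D k, r p ≠ w := by
          intro p hp w hw e
          exact hc.not_mem hkN' (e ▸ hw) (hF.sol.rmem p hp)
        obtain ⟨r', h'⟩ := hH.close_pair hc hkN' hM hMij hy (by rw [hFj]; exact hzD) hyz
          (fun p hp => hav p hp y hyD) (fun p hp => hav p hp z hzD) hn1
        exact ⟨r', l', h'⟩
      · obtain ⟨a, ha⟩ := (hM.dom i).1 hi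
        obtain ⟨b, hb⟩ := (hM.dom j).1 hj
        have hM' := mat_jn hM ha hb hij hMij
        obtain ⟨r, l, hF⟩ := IH _ _ _ _ _ (hI.stay hkN' hsub (by rw [hcoe]; exact hM') hloc' hup0)
        rw [hcoe] at hF
        obtain ⟨c, hc1⟩ := hI.ne i hi
        have hc2 := hlocD i hi hik hc1
        obtain ⟨d, hd2, hdc, -⟩ := hc.three k hkN' c c
        obtain ⟨r', l', h', hH⟩ := half2 hc hkN' hM ha hb hij hMij hF hc1 (by rw [hFj]; exact hd2)
          hc2 hd2 hdc.symm
        exact ⟨r', l', hH.close hn⟩
    · -- three slots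
      obtain ⟨hpT, hpD⟩ := hfixT p hp hpk' hFp
      obtain ⟨a0, ha0, ha0'⟩ := hc.surj k h0 hkN' p hpD
      have hcoe : ∀ x y : X, ((S \ {x, y} : Finset X) : Set X) = (S : Set X) \ {x, y} := by
        intro x y
        rw [Finset.coe_sdiff, Finset.coe_insert, Finset.coe_singleton]
      have hmem : ∀ x y q : X, q ∈ (S \ {x, y} : Finset X) ↔ q ∈ S ∧ q ≠ x ∧ q ≠ y := by
        intro x y q
        rw [Finset.mem_sdiff, Finset.mem_insert, Finset.mem_singleton, not_or]
      have hsub : ∀ x y : X, (S \ {x, y} : Finset X) ⊆ S := fun x y => Finset.sdiff_subset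
      -- the fixed slot is matched with one of the others
      have key : ∀ i j, i ∈ S → j ∈ S → p ≠ i → p ≠ j → i ≠ j → loc j = k →
          (∀ q ∈ S, q ≠ p → q ≠ i → q ≠ j → loc q ≠ k) → F i = D k → F j = D k → M p i →
          ∃ r l, Fine R D (k + 1) (S : Set X) M F need r l := by
        intro i j hi hj hpi hpj hij hjk ho hFi hFj hMpi
        have hM' := mat_er hM hMpi
        have hjS : j ∈ (S : Set X) \ {p, i} := by
          refine ⟨hj, ?_⟩
          simp [hpj.symm, hij.symm]
        obtain ⟨r, l, hF⟩ := IH _ _ _ _ _ (hI.move hc hsep h0 hkN' (hsub p i)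
          (by rw [hcoe]; exact hM') (t := j) (fun q hq hqj => by
            rw [hmem] at hq
            exact ho q hq.1 hq.2.1 hq.2.2 hqj)
          (F' := D (par k)) (Set.Subset.refl _) hneP' (Or.inl rfl))
        rw [hcoe] at hF
        obtain ⟨e, he1, he2, he3⟩ := hc.three k hkN' (φ k (r j)) p
        obtain ⟨l', h', hH, hlast, hav⟩ := half1 hc h0 hkN' (F := F) hM' hF (t := j) (e := e) hjS
          (by rw [Function.update_self])
          (fun q hq => by rw [Function.update_of_ne hq]) (by rw [hFj]; exact he1) he1 he2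
        obtain ⟨z, hyz, hze⟩ := exists_nb_ne hH.len hH.nodup hlast ((hH.mem p).2 hpD) he3.symm
        have hzD := (hH.mem z).1 hyz.mem_right
        have hav' : ∀ q ∈ (S : Set X) \ {p, i}, ∀ w ∈ D k, w ≠ e →
            Function.update r j e q ≠ w := by
          intro q hq w hw hwe hcon
          by_cases hqj : q = j
          · rw [hqj, Function.update_self] at hcon
            exact hwe hcon.symm
          · exact hav q hq hqj (by rw [hcon]; exact hw)
        obtain ⟨r', h'⟩ := hH.close_pair hc hkN' hM hMpi (y := p) (z := z) (by rw [hFp]; rfl)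
          (by rw [hFi]; exact hzD) hyz
          (fun q hq => hav' q hq p hpD he3.symm) (fun q hq => hav' q hq z hzD hze) (by omega)
        exact ⟨r', l', h'⟩
      by_cases hMpi : M p i
      · exact key i j hi hj hpi hpj hij hjk ho hFi hFj hMpi
      by_cases hMpj : M p j
      · exact key j i hj hi hpj hpi hij.symm hik (fun q hq h1 h2 h3 => ho q hq h1 h3 h2) hFj hFi
          hMpj
      by_cases hMij : M i j
      · have hM' := mat_er hM hMij
        have hpS : p ∈ (S : Set X) \ {i, j} := by
          refine ⟨hp, ?_⟩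
          simp [hpi, hpj]
        obtain ⟨r, l, hF⟩ := IH _ _ _ _ _ (hI.move hc hsep h0 hkN' (hsub i j)
          (by rw [hcoe]; exact hM') (t := p) (fun q hq hqp => by
            rw [hmem] at hq
            exact ho q hq.1 hqp hq.2.1 hq.2.2)
          (F' := D (par k) \ {a0}) Set.sdiff_subset (hneP a0)
          (Or.inr ⟨⟨p, hpT, hpD⟩, a0, rfl⟩))
        rw [hcoe] at hF
        have hrt := hF.fin p hpS
        rw [Function.update_self] at hrt
        obtain ⟨l', h', hH, hlast, hav⟩ := half1 hc h0 hkN' (F := F) hM' hF (t := p) (e := p) hpS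
          (by rw [Function.update_self]; exact Set.sdiff_subset)
          (fun q hq => by rw [Function.update_of_ne hq]) (by rw [hFp]; rfl) hpD
          (fun e => hrt.2 (hc.inj k h0 hkN' _ hrt.1 _ ha0 (by rw [ha0', ← e])))
        obtain ⟨y, hyD, hyp, -⟩ := hc.three k hkN' p p
        obtain ⟨z, hyz, hzp⟩ := exists_nb_ne hH.len hH.nodup hlast ((hH.mem y).2 hyD) hyp
        have hzD := (hH.mem z).1 hyz.mem_right
        have hav' : ∀ q ∈ (S : Set X) \ {i, j}, ∀ w ∈ D k, w ≠ p →
            Function.update r p p q ≠ w := by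
          intro q hq w hw hwe hcon
          by_cases hqj : q = p
          · rw [hqj, Function.update_self] at hcon
            exact hwe hcon.symm
          · exact hav q hq hqj (by rw [hcon]; exact hw)
        obtain ⟨r', h'⟩ := hH.close_pair hc hkN' hM hMij (y := y) (z := z)
          (by rw [hFi]; exact hyD) (by rw [hFj]; exact hzD) hyz
          (fun q hq => hav' q hq y hyD hyp) (fun q hq => hav' q hq z hzD hzp) (by omega)
        exact ⟨r', l', h'⟩
      · obtain ⟨a, ha⟩ := (hM.dom p).1 hp
        obtain ⟨b, hb⟩ := (hM.dom i).1 hi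
        have hM' := mat_jn hM ha hb hpi hMpi
        have hjS : j ∈ (S : Set X) \ {p, i} := by
          refine ⟨hj, ?_⟩
          simp [hpj.symm, hij.symm]
        obtain ⟨r, l, hF⟩ := IH _ _ _ _ _ (hI.move hc hsep h0 hkN' (hsub p i)
          (by rw [hcoe]; exact hM') (t := j) (fun q hq hqj => by
            rw [hmem] at hq
            exact ho q hq.1 hq.2.1 hq.2.2 hqj)
          (F' := D (par k) \ {a0}) Set.sdiff_subset (hneP a0)
          (Or.inr ⟨⟨p, hpT, hpD⟩, a0, rfl⟩))
        rw [hcoe] at hF
        have hrt := hF.fin j hjS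
        rw [Function.update_self] at hrt
        exact triple hc h0 hkN' (F := F) hM ha hb hpi hMpi hF hj hpj.symm hij.symm
          (by rw [Function.update_self]; exact Set.sdiff_subset)
          (fun q hq => by rw [Function.update_of_ne hq]) hpD (by rw [hFp]; rfl)
          (by rw [hFi]) (by rw [hFj])
          (fun e => hrt.2 (hc.inj k h0 hkN' _ hrt.1 _ ha0 (by rw [ha0', ← e]))) hn0

end Pool.Agent.Helper43.LT
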