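import Pool.Agent.Helper43.LT.Cyc

/-!
# Hamiltonian cycles through matched slots

`S` is a set of slots with a perfect matching `M`, and `r` assigns to every slot a vertex in the
region `U`. A solution is a cyclic list of the vertices of `U` whose steps are in `R` or jumps, the
pairs `r p, r q` with `M p q`; and all jumps are used.
-/

set_option autoImplicit false

namespace Pool.Agent.Helper43.LT

open Pool.Agent.Helper43.LG

variable {X : Type*}

/-- the jumps -/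
def J (M : X → X → Prop) (r : X → X) : Set (Sym2 X) := {e | ∃ p q, M p q ∧ e = s(r p, r q)}

/-- a solution -/
structure Sol (R : X → X → Prop) (U : Set X) (S : Set X) (M : X → X → Prop) (r : X → X)
    (l : List X) : Prop where
  inj : ∀ p ∈ S, ∀ q ∈ S, r p = r q → p = q
  rmem : ∀ q ∈ S, r q ∈ U
  nodup : l.Nodup
  len : 3 ≤ l.length
  mem : ∀ z, z ∈ l ↔ z ∈ U
  step : ∀ u v, CA l u v → R u v ∨ s(u, v) ∈ J M r
  pairs : ∀ p q, M p q → CA l (r p) (r q)

/-- the free pairs -/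
def Free (l : List X) (M : X → X → Prop) (r : X → X) (u v : X) : Prop :=
  CA l u v ∧ s(u, v) ∉ J M r

theorem nb_chain {R : X → X → Prop} (hR : ∀ x y, R x y → R y x) {h : List X}
    (hc : h.IsChain R) {u v : X} (hn : Nb h u v) : R u v := by
  have key : ∀ a b, [a, b] <:+: h → R a b := by
    rintro a b ⟨s, t, rfl⟩
    have h1 := (List.isChain_append.1 (List.isChain_append.1 hc).1).2.1
    simpa using h1
  rcases hn with hn | hn
  · exact key _ _ hn
  · exact hR _ _ (key _ _ hn)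

theorem rel_of_sym {R : X → X → Prop} (hR : ∀ x y, R x y → R y x) {u v a b : X} (h : R a b)
    (e : s(u, v) = s(a, b)) : R u v := by
  rw [Sym2.eq_iff] at e
  rcases e with ⟨rfl, rfl⟩ | ⟨rfl, rfl⟩
  · exact h
  · exact hR _ _ h

/-- insertion at a free pair -/
theorem Sol.ins_free {R : X → X → Prop} {U S : Set X} {M : X → X → Prop} {r : X → X} {l : List X}
    (hR : ∀ x y, R x y → R y x) (hS : Sol R U S M r l) (hM : Mat M S) {x y : X}
    (hxy : Free l M r x y) {h : List X} {c d : X} (hh : h.Nodup) (hd : ∀ z ∈ h, z ∉ U)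
    (hseg : Seg R c d h) (hxc : R x c) (hdy : R d y) :
    ∃ l', Sol R (U ∪ {z | z ∈ h}) S M r l' ∧
      (∀ u v, Free l M r u v → s(u, v) ≠ s(x, y) → Free l' M r u v) ∧
      (∀ u v, Nb h u v → Free l' M r u v) := by
  obtain ⟨l', h1, h2, h3, h4⟩ := exists_insert hS.len hS.nodup hxy.1 hh
    (fun z hz hz' => hd z hz ((hS.mem z).1 hz')) hseg.head hseg.last
  refine ⟨l', ⟨hS.inj, fun q hq => Or.inl (hS.rmem q hq), h1, h2, ?_, ?_, ?_⟩, ?_, ?_⟩
  · intro z
    rw [h3, hS.mem]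
    rfl
  · intro u v huv
    rcases (h4 u v).1 huv with ⟨h5, -⟩ | h5 | h5 | h5
    · exact hS.step u v h5
    · exact Or.inl (nb_chain hR hseg.chain h5)
    · exact Or.inl (rel_of_sym hR hxc h5)
    · exact Or.inl (rel_of_sym hR hdy h5)
  · intro p q hpq
    exact (h4 _ _).2 (Or.inl ⟨hS.pairs p q hpq, fun e => hxy.2 ⟨p, q, hpq, e.symm⟩⟩)
  · intro u v huv hne
    exact ⟨(h4 _ _).2 (Or.inl ⟨huv.1, hne⟩), huv.2⟩
  · intro u v huv
    refine ⟨(h4 _ _).2 (Or.inr (Or.inl huv)), ?_⟩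
    rintro ⟨p, q, hpq, e⟩
    have hp := hS.rmem p (hM.mem hpq).1
    have hq := hS.rmem q (hM.mem hpq).2
    rw [Sym2.eq_iff] at e
    rcases e with ⟨e1, -⟩ | ⟨e1, -⟩
    · exact hd u huv.mem_left (by rw [e1]; exact hp)
    · exact hd u huv.mem_left (by rw [e1]; exact hq)

open Classical in
/-- insertion at a slot, which is moved to the end of the new path -/
theorem Sol.ins_slot {R : X → X → Prop} {U S : Set X} {M : X → X → Prop} {r : X → X} {l : List X}
    (hR : ∀ x y, R x y → R y x) (hS : Sol R U S M r l) (hM : Mat M S) {t : X} (ht : t ∈ S)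
    {h : List X} {c e : X} (hh : h.Nodup) (hd : ∀ z ∈ h, z ∉ U) (hseg : Seg R c e h)
    (hxc : R (r t) c) :
    ∃ l', Sol R (U ∪ {z | z ∈ h}) S M (Function.update r t e) l' ∧
      (∀ u v, u ∈ U → v ∈ U → Free l M r u v → Free l' M (Function.update r t e) u v) ∧
      (∀ u v, Nb h u v → Free l' M (Function.update r t e) u v) := by
  obtain ⟨q, htq⟩ := (hM.dom t).1 ht
  have hqt : q ≠ t := by
    rintro rfl
    exact hM.irr _ htq
  have hqS : q ∈ S := (hM.mem htq).2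
  set r' := Function.update r t e with hr'
  have rt : r' t = e := by rw [hr', Function.update_self]
  have rne : ∀ p, p ≠ t → r' p = r p := fun p hp => by rw [hr', Function.update_of_ne hp]
  have heU : e ∉ U := hd e hseg.last_mem
  obtain ⟨l', h1, h2, h3, h4⟩ := exists_insert hS.len hS.nodup (hS.pairs t q htq) hh
    (fun z hz hz' => hd z hz ((hS.mem z).1 hz')) hseg.head hseg.last
  -- jumps
  have hJ : ∀ p p', M p p' → (p = t ∧ p' = q) ∨ (p = q ∧ p' = t) ∨ (p ≠ t ∧ p' ≠ t) := by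
    intro p p' hpp
    by_cases hp : p = t
    · subst hp
      exact Or.inl ⟨rfl, hM.uniq _ _ _ hpp htq⟩
    · by_cases hp' : p' = t
      · subst hp'
        exact Or.inr (Or.inl ⟨hM.uniq _ _ _ (hM.symm _ _ hpp) htq, rfl⟩)
      · exact Or.inr (Or.inr ⟨hp, hp'⟩)
  refine ⟨l', ⟨?_, ?_, h1, h2, ?_, ?_, ?_⟩, ?_, ?_⟩
  · intro p hp p' hp' he
    by_cases h5 : p = t
    · by_cases h6 : p' = t
      · rw [h5, h6]
      · rw [h5, rt, rne p' h6] at he
        exact absurd (he ▸ hS.rmem p' hp') heU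
    · by_cases h6 : p' = t
      · rw [h6, rt, rne p h5] at he
        exact absurd (he ▸ hS.rmem p hp) heU
      · rw [rne p h5, rne p' h6] at he
        exact hS.inj p hp p' hp' he
  · intro p hp
    by_cases h5 : p = t
    · rw [h5, rt]
      exact Or.inr hseg.last_mem
    · rw [rne p h5]
      exact Or.inl (hS.rmem p hp)
  · intro z
    rw [h3, hS.mem]
    rfl
  · intro u v huv
    rcases (h4 u v).1 huv with ⟨h5, h6⟩ | h5 | h5 | h5
    · rcases hS.step u v h5 with h7 | ⟨p, p', hpp, h7⟩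
      · exact Or.inl h7
      · right
        rcases hJ p p' hpp with ⟨rfl, rfl⟩ | ⟨rfl, rfl⟩ | ⟨a1, a2⟩
        · exact absurd h7 h6
        · exact absurd (h7.trans Sym2.eq_swap) h6
        · exact ⟨p, p', hpp, by rw [rne p a1, rne p' a2]; exact h7⟩
    · exact Or.inl (nb_chain hR hseg.chain h5)
    · exact Or.inl (rel_of_sym hR hxc h5)
    · exact Or.inr ⟨t, q, htq, by rw [rt, rne q hqt]; exact h5⟩
  · intro p p' hpp
    rcases hJ p p' hpp with ⟨rfl, rfl⟩ | ⟨rfl, rfl⟩ | ⟨a1, a2⟩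
    · rw [rt, rne _ hqt]
      exact (h4 _ _).2 (Or.inr (Or.inr (Or.inr rfl)))
    · rw [rt, rne _ hqt]
      exact (h4 _ _).2 (Or.inr (Or.inr (Or.inr Sym2.eq_swap)))
    · rw [rne _ a1, rne _ a2]
      refine (h4 _ _).2 (Or.inl ⟨hS.pairs p p' hpp, fun h5 => ?_⟩)
      rw [Sym2.eq_iff] at h5
      obtain ⟨b1, b2⟩ := hM.mem hpp
      rcases h5 with ⟨c1, -⟩ | ⟨-, c1⟩
      · exact a1 (hS.inj _ b1 _ ht c1)
      · exact a2 (hS.inj _ b2 _ ht c1)
  · intro u v hu hv huv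
    refine ⟨(h4 _ _).2 (Or.inl ⟨huv.1, fun h5 => huv.2 ⟨t, q, htq, h5⟩⟩), ?_⟩
    rintro ⟨p, p', hpp, h5⟩
    rcases hJ p p' hpp with ⟨rfl, rfl⟩ | ⟨rfl, rfl⟩ | ⟨a1, a2⟩
    · rw [rt, Sym2.eq_iff] at h5
      rcases h5 with ⟨c1, -⟩ | ⟨-, c1⟩
      · exact heU (c1 ▸ hu)
      · exact heU (c1 ▸ hv)
    · rw [rt, Sym2.eq_iff] at h5
      rcases h5 with ⟨-, c1⟩ | ⟨c1, -⟩
      · exact heU (c1 ▸ hv)
      · exact heU (c1 ▸ hu)
    · rw [rne _ a1, rne _ a2] at h5
      exact huv.2 ⟨p, p', hpp, h5⟩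
  · intro u v huv
    refine ⟨(h4 _ _).2 (Or.inr (Or.inl huv)), ?_⟩
    have hu := hd u huv.mem_left
    have hv := hd v huv.mem_right
    rintro ⟨p, p', hpp, h5⟩
    have hrq : r' q ∈ U := by rw [rne q hqt]; exact hS.rmem q hqS
    rcases hJ p p' hpp with ⟨rfl, rfl⟩ | ⟨rfl, rfl⟩ | ⟨a1, a2⟩
    · rw [Sym2.eq_iff] at h5
      rcases h5 with ⟨-, c1⟩ | ⟨c1, -⟩
      · exact hv (c1 ▸ hrq)
      · exact hu (c1 ▸ hrq)
    · rw [Sym2.eq_iff] at h5
      rcases h5 with ⟨c1, -⟩ | ⟨-, c1⟩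
      · exact hu (c1 ▸ hrq)
      · exact hv (c1 ▸ hrq)
    · rw [rne _ a1, rne _ a2, Sym2.eq_iff] at h5
      obtain ⟨b1, b2⟩ := hM.mem hpp
      rcases h5 with ⟨c1, -⟩ | ⟨c1, -⟩
      · exact hu (c1 ▸ hS.rmem _ b1)
      · exact hu (c1 ▸ hS.rmem _ b2)

/-- the matching without a pair -/
def er (M : X → X → Prop) (i j : X) : X → X → Prop := fun u v => M u v ∧ u ≠ i ∧ u ≠ j

/-- the matching in which the partners `a`, `b` of `i`, `j` are joined -/
def jn (M : X → X → Prop) (i j a b : X) : X → X → Prop := fun u v =>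
  (((M u v ∧ u ≠ i ∧ u ≠ a) ∧ u ≠ j ∧ u ≠ b)) ∨ (u = a ∧ v = b) ∨ (u = b ∧ v = a)

theorem mat_er {M : X → X → Prop} {S : Set X} (h : Mat M S) {i j : X} (hij : M i j) :
    Mat (er M i j) (S \ {i, j}) := h.erase hij

theorem mat_jn {M : X → X → Prop} {S : Set X} (h : Mat M S) {i j a b : X} (hia : M i a)
    (hjb : M j b) (hij : i ≠ j) (hn : ¬ M i j) : Mat (jn M i j a b) (S \ {i, j}) := by
  have hai : a ≠ i := by rintro rfl; exact h.irr _ hia
  have haj : a ≠ j := by rintro rfl; exact hn hia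
  have hbj : b ≠ j := by rintro rfl; exact h.irr _ hjb
  have hbi : b ≠ i := by rintro rfl; exact hn (h.symm _ _ hjb)
  have hab : a ≠ b := by
    rintro rfl
    exact hij (h.uniq _ _ _ (h.symm _ _ hia) (h.symm _ _ hjb))
  have h1 := (h.erase hia).erase (p := j) (q := b) ⟨hjb, hij.symm, haj.symm⟩
  have h2 := h1.insert (r := a) (b := b) (by simp) (by simp) hab
  refine h2.congr ?_
  ext x
  simp only [Set.mem_union, Set.mem_sdiff, Set.mem_insert_iff, Set.mem_singleton_iff, not_or]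
  constructor
  · rintro (⟨⟨h3, h4, -⟩, h5, -⟩ | rfl | rfl)
    · exact ⟨h3, h4, h5⟩
    · exact ⟨(h.mem hia).2, hai, haj⟩
    · exact ⟨(h.mem hjb).2, hbi, hbj⟩
  · rintro ⟨h3, h4, h5⟩
    by_cases h6 : x = a
    · exact Or.inr (Or.inl h6)
    by_cases h7 : x = b
    · exact Or.inr (Or.inr h7)
    exact Or.inl ⟨⟨h3, h4, h6⟩, h5, h7⟩

open Classical in
/-- insertion between two joined partners -/
theorem Sol.ins_join {R : X → X → Prop} {U S : Set X} {M : X → X → Prop} {r : X → X} {l : List X}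
    (hR : ∀ x y, R x y → R y x) (hM : Mat M S) {i j a b : X} (hia : M i a) (hjb : M j b)
    (hij : i ≠ j) (hn : ¬ M i j) (hS : Sol R U (S \ {i, j}) (jn M i j a b) r l)
    {h : List X} {c d : X} (hh : h.Nodup) (hd : ∀ z ∈ h, z ∉ U) (hseg : Seg R c d h)
    (hcd : c ≠ d) :
    ∃ l', Sol R (U ∪ {z | z ∈ h}) S M (Function.update (Function.update r i c) j d) l' ∧
      (∀ u v, u ∈ U → v ∈ U → Free l (jn M i j a b) r u v →
        Free l' M (Function.update (Function.update r i c) j d) u v) ∧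
      (∀ u v, Nb h u v → Free l' M (Function.update (Function.update r i c) j d) u v) := by
  have hai : a ≠ i := by rintro rfl; exact hM.irr _ hia
  have haj : a ≠ j := by rintro rfl; exact hn hia
  have hbj : b ≠ j := by rintro rfl; exact hM.irr _ hjb
  have hbi : b ≠ i := by rintro rfl; exact hn (hM.symm _ _ hjb)
  set r' := Function.update (Function.update r i c) j d with hr'
  have rj : r' j = d := by rw [hr', Function.update_self]
  have ri : r' i = c := by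
    rw [hr', Function.update_of_ne hij, Function.update_self]
  have rne : ∀ p, p ≠ i → p ≠ j → r' p = r p := fun p hp hp' => by
    rw [hr', Function.update_of_ne hp', Function.update_of_ne hp]
  have hcU : c ∉ U := hd c hseg.head_mem
  have hdU : d ∉ U := hd d hseg.last_mem
  have haS : a ∈ S \ {i, j} := ⟨(hM.mem hia).2, by simp [hai, haj]⟩
  have hbS : b ∈ S \ {i, j} := ⟨(hM.mem hjb).2, by simp [hbi, hbj]⟩
  have hjab : jn M i j a b a b := Or.inr (Or.inl ⟨rfl, rfl⟩)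
  obtain ⟨l', h1, h2, h3, h4⟩ := exists_insert hS.len hS.nodup (hS.pairs a b hjab) hh
    (fun z hz hz' => hd z hz ((hS.mem z).1 hz')) hseg.head hseg.last
  -- jumps
  have hJ : ∀ p p', M p p' → (p = i ∧ p' = a) ∨ (p = a ∧ p' = i) ∨ (p = j ∧ p' = b) ∨
      (p = b ∧ p' = j) ∨ (p ≠ i ∧ p ≠ j ∧ p' ≠ i ∧ p' ≠ j ∧ p ≠ a ∧ p ≠ b ∧ p' ≠ a ∧ p' ≠ b) := by
    intro p p' hpp
    by_cases e1 : p = i
    · subst e1; exact Or.inl ⟨rfl, hM.uniq _ _ _ hpp hia⟩
    by_cases e2 : p = a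
    · subst e2; exact Or.inr (Or.inl ⟨rfl, hM.uniq _ _ _ hpp (hM.symm _ _ hia)⟩)
    by_cases e3 : p = j
    · subst e3; exact Or.inr (Or.inr (Or.inl ⟨rfl, hM.uniq _ _ _ hpp hjb⟩))
    by_cases e4 : p = b
    · subst e4; exact Or.inr (Or.inr (Or.inr (Or.inl ⟨rfl, hM.uniq _ _ _ hpp (hM.symm _ _ hjb)⟩)))
    have hp' := hM.symm _ _ hpp
    refine Or.inr (Or.inr (Or.inr (Or.inr ⟨e1, e3, ?_, ?_, e2, e4, ?_, ?_⟩)))
    · rintro rfl; exact e2 (hM.uniq _ _ _ hp' hia)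
    · rintro rfl; exact e4 (hM.uniq _ _ _ hp' hjb)
    · rintro rfl; exact e1 (hM.uniq _ _ _ hp' (hM.symm _ _ hia))
    · rintro rfl; exact e3 (hM.uniq _ _ _ hp' (hM.symm _ _ hjb))
  have hmem' : ∀ p, p ∈ S → p ≠ i → p ≠ j → p ∈ S \ {i, j} := fun p h5 h6 h7 =>
    ⟨h5, by simp [h6, h7]⟩
  refine ⟨l', ⟨?_, ?_, h1, h2, ?_, ?_, ?_⟩, ?_, ?_⟩
  · intro p hp p' hp' he
    by_cases e1 : p = i
    · by_cases e2 : p' = i
      · rw [e1, e2]
      · by_cases e3 : p' = j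
        · rw [e1, e3, ri, rj] at he
          exact absurd he hcd
        · rw [e1, ri, rne p' e2 e3] at he
          exact absurd (he ▸ hS.rmem p' (hmem' _ hp' e2 e3)) hcU
    · by_cases e2 : p = j
      · by_cases e3 : p' = i
        · rw [e2, e3, ri, rj] at he
          exact absurd he.symm hcd
        · by_cases e4 : p' = j
          · rw [e2, e4]
          · rw [e2, rj, rne p' e3 e4] at he
            exact absurd (he ▸ hS.rmem p' (hmem' _ hp' e3 e4)) hdU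
      · rw [rne p e1 e2] at he
        have h5 := hS.rmem p (hmem' _ hp e1 e2)
        by_cases e3 : p' = i
        · rw [e3, ri] at he
          exact absurd (he ▸ h5) hcU
        · by_cases e4 : p' = j
          · rw [e4, rj] at he
            exact absurd (he ▸ h5) hdU
          · rw [rne p' e3 e4] at he
            exact hS.inj _ (hmem' _ hp e1 e2) _ (hmem' _ hp' e3 e4) he
  · intro p hp
    by_cases e1 : p = i
    · rw [e1, ri]; exact Or.inr hseg.head_mem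
    by_cases e2 : p = j
    · rw [e2, rj]; exact Or.inr hseg.last_mem
    rw [rne p e1 e2]
    exact Or.inl (hS.rmem p (hmem' _ hp e1 e2))
  · intro z
    rw [h3, hS.mem]
    rfl
  · intro u v huv
    rcases (h4 u v).1 huv with ⟨h5, h6⟩ | h5 | h5 | h5
    · rcases hS.step u v h5 with h7 | ⟨p, p', hpp, h7⟩
      · exact Or.inl h7
      · right
        rcases hpp with ⟨⟨hpp, e1, e2⟩, e3, e4⟩ | ⟨rfl, rfl⟩ | ⟨rfl, rfl⟩
        · rcases hJ p p' hpp with ⟨a1, -⟩ | ⟨a1, -⟩ | ⟨a1, -⟩ | ⟨a1, -⟩ | ⟨a1, a2, a3, a4, -⟩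
          · exact absurd a1 e1
          · exact absurd a1 e2
          · exact absurd a1 e3
          · exact absurd a1 e4
          · exact ⟨p, p', hpp, by rw [rne p a1 a2, rne p' a3 a4]; exact h7⟩
        · exact absurd h7 h6
        · exact absurd (h7.trans Sym2.eq_swap) h6
    · exact Or.inl (nb_chain hR hseg.chain h5)
    · exact Or.inr ⟨a, i, hM.symm _ _ hia, by rw [ri, rne a hai haj]; exact h5⟩
    · exact Or.inr ⟨j, b, hjb, by rw [rj, rne b hbi hbj]; exact h5⟩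
  · intro p p' hpp
    rcases hJ p p' hpp with ⟨rfl, rfl⟩ | ⟨rfl, rfl⟩ | ⟨rfl, rfl⟩ | ⟨rfl, rfl⟩ |
      ⟨a1, a2, a3, a4, a5, a6, a7, a8⟩
    · rw [ri, rne _ hai haj]
      exact (h4 _ _).2 (Or.inr (Or.inr (Or.inl Sym2.eq_swap)))
    · rw [ri, rne _ hai haj]
      exact (h4 _ _).2 (Or.inr (Or.inr (Or.inl rfl)))
    · rw [rj, rne _ hbi hbj]
      exact (h4 _ _).2 (Or.inr (Or.inr (Or.inr rfl)))
    · rw [rj, rne _ hbi hbj]
      exact (h4 _ _).2 (Or.inr (Or.inr (Or.inr Sym2.eq_swap)))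
    · rw [rne _ a1 a2, rne _ a3 a4]
      have hjp : jn M i j a b p p' := Or.inl ⟨⟨hpp, a1, a5⟩, a2, a6⟩
      refine (h4 _ _).2 (Or.inl ⟨hS.pairs p p' hjp, fun h5 => ?_⟩)
      obtain ⟨b1, b2⟩ := hM.mem hpp
      rw [Sym2.eq_iff] at h5
      rcases h5 with ⟨c1, -⟩ | ⟨c1, -⟩
      · exact a5 (hS.inj _ (hmem' _ b1 a1 a2) _ haS c1)
      · exact a6 (hS.inj _ (hmem' _ b1 a1 a2) _ hbS c1)
  · intro u v hu hv huv
    refine ⟨(h4 _ _).2 (Or.inl ⟨huv.1, fun h5 => huv.2 ⟨a, b, hjab, h5⟩⟩), ?_⟩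
    rintro ⟨p, p', hpp, h5⟩
    rcases hJ p p' hpp with ⟨rfl, rfl⟩ | ⟨rfl, rfl⟩ | ⟨rfl, rfl⟩ | ⟨rfl, rfl⟩ |
      ⟨a1, a2, a3, a4, a5, a6, a7, a8⟩
    · rw [ri, Sym2.eq_iff] at h5
      rcases h5 with ⟨c1, -⟩ | ⟨-, c1⟩
      · exact hcU (c1 ▸ hu)
      · exact hcU (c1 ▸ hv)
    · rw [ri, Sym2.eq_iff] at h5
      rcases h5 with ⟨-, c1⟩ | ⟨c1, -⟩
      · exact hcU (c1 ▸ hv)
      · exact hcU (c1 ▸ hu)
    · rw [rj, Sym2.eq_iff] at h5
      rcases h5 with ⟨c1, -⟩ | ⟨-, c1⟩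
      · exact hdU (c1 ▸ hu)
      · exact hdU (c1 ▸ hv)
    · rw [rj, Sym2.eq_iff] at h5
      rcases h5 with ⟨-, c1⟩ | ⟨c1, -⟩
      · exact hdU (c1 ▸ hv)
      · exact hdU (c1 ▸ hu)
    · rw [rne _ a1 a2, rne _ a3 a4] at h5
      exact huv.2 ⟨p, p', Or.inl ⟨⟨hpp, a1, a5⟩, a2, a6⟩, h5⟩
  · intro u v huv
    refine ⟨(h4 _ _).2 (Or.inr (Or.inl huv)), ?_⟩
    have hu := hd u huv.mem_left
    have hv := hd v huv.mem_right
    have hra : r' a ∈ U := by rw [rne a hai haj]; exact hS.rmem a haS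
    have hrb : r' b ∈ U := by rw [rne b hbi hbj]; exact hS.rmem b hbS
    rintro ⟨p, p', hpp, h5⟩
    rcases hJ p p' hpp with ⟨rfl, rfl⟩ | ⟨rfl, rfl⟩ | ⟨rfl, rfl⟩ | ⟨rfl, rfl⟩ |
      ⟨a1, a2, a3, a4, a5, a6, a7, a8⟩
    · rw [Sym2.eq_iff] at h5
      rcases h5 with ⟨-, c1⟩ | ⟨c1, -⟩
      · exact hv (c1 ▸ hra)
      · exact hu (c1 ▸ hra)
    · rw [Sym2.eq_iff] at h5
      rcases h5 with ⟨c1, -⟩ | ⟨-, c1⟩
      · exact hu (c1 ▸ hra)
      · exact hv (c1 ▸ hra)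
    · rw [Sym2.eq_iff] at h5
      rcases h5 with ⟨-, c1⟩ | ⟨c1, -⟩
      · exact hv (c1 ▸ hrb)
      · exact hu (c1 ▸ hrb)
    · rw [Sym2.eq_iff] at h5
      rcases h5 with ⟨c1, -⟩ | ⟨-, c1⟩
      · exact hu (c1 ▸ hrb)
      · exact hv (c1 ▸ hrb)
    · obtain ⟨b1, b2⟩ := hM.mem hpp
      have h6 := hS.rmem p (hmem' _ b1 a1 a2)
      have h7 := hS.rmem p' (hmem' _ b2 a3 a4)
      rw [rne _ a1 a2, rne _ a3 a4, Sym2.eq_iff] at h5
      rcases h5 with ⟨c1, -⟩ | ⟨c1, -⟩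
      · exact hu (c1 ▸ h6)
      · exact hu (c1 ▸ h7)

open Classical in
/-- a free pair is used for a new pair of slots -/
theorem Sol.add_pair {R : X → X → Prop} {U S : Set X} {M : X → X → Prop} {r : X → X} {l : List X}
    (hM : Mat M S) {i j : X} (hMij : M i j) (hS : Sol R U (S \ {i, j}) (er M i j) r l)
    {y z : X} (hyz : Free l (er M i j) r y z) (hy : ∀ p ∈ S \ {i, j}, r p ≠ y)
    (hz : ∀ p ∈ S \ {i, j}, r p ≠ z) :
    Sol R U S M (Function.update (Function.update r i y) j z) l ∧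
      (∀ u v, Free l (er M i j) r u v → s(u, v) ≠ s(y, z) →
        Free l M (Function.update (Function.update r i y) j z) u v) := by
  have hij : i ≠ j := by rintro rfl; exact hM.irr _ hMij
  have hne : y ≠ z := hyz.1.ne hS.len hS.nodup
  set r' := Function.update (Function.update r i y) j z with hr'
  have rj : r' j = z := by rw [hr', Function.update_self]
  have ri : r' i = y := by
    rw [hr', Function.update_of_ne hij, Function.update_self]
  have rne : ∀ p, p ≠ i → p ≠ j → r' p = r p := fun p hp hp' => by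
    rw [hr', Function.update_of_ne hp', Function.update_of_ne hp]
  have hmem' : ∀ p, p ∈ S → p ≠ i → p ≠ j → p ∈ S \ {i, j} := fun p h5 h6 h7 =>
    ⟨h5, by simp [h6, h7]⟩
  have hJ : ∀ p p', M p p' → (p = i ∧ p' = j) ∨ (p = j ∧ p' = i) ∨
      (p ≠ i ∧ p ≠ j ∧ p' ≠ i ∧ p' ≠ j) := by
    intro p p' hpp
    by_cases e1 : p = i
    · subst e1; exact Or.inl ⟨rfl, hM.uniq _ _ _ hpp hMij⟩
    by_cases e2 : p = j
    · subst e2; exact Or.inr (Or.inl ⟨rfl, hM.uniq _ _ _ hpp (hM.symm _ _ hMij)⟩)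
    have hp' := hM.symm _ _ hpp
    refine Or.inr (Or.inr ⟨e1, e2, ?_, ?_⟩)
    · rintro rfl; exact e2 (hM.uniq _ _ _ hp' hMij)
    · rintro rfl; exact e1 (hM.uniq _ _ _ hp' (hM.symm _ _ hMij))
  refine ⟨⟨?_, ?_, hS.nodup, hS.len, hS.mem, ?_, ?_⟩, ?_⟩
  · intro p hp p' hp' he
    by_cases e1 : p = i
    · by_cases e2 : p' = i
      · rw [e1, e2]
      · by_cases e3 : p' = j
        · rw [e1, e3, ri, rj] at he
          exact absurd he hne
        · rw [e1, ri, rne p' e2 e3] at he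
          exact absurd he.symm (hy p' (hmem' _ hp' e2 e3))
    · by_cases e2 : p = j
      · by_cases e3 : p' = i
        · rw [e2, e3, ri, rj] at he
          exact absurd he.symm hne
        · by_cases e4 : p' = j
          · rw [e2, e4]
          · rw [e2, rj, rne p' e3 e4] at he
            exact absurd he.symm (hz p' (hmem' _ hp' e3 e4))
      · rw [rne p e1 e2] at he
        by_cases e3 : p' = i
        · rw [e3, ri] at he
          exact absurd he (hy p (hmem' _ hp e1 e2))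
        · by_cases e4 : p' = j
          · rw [e4, rj] at he
            exact absurd he (hz p (hmem' _ hp e1 e2))
          · rw [rne p' e3 e4] at he
            exact hS.inj _ (hmem' _ hp e1 e2) _ (hmem' _ hp' e3 e4) he
  · intro p hp
    by_cases e1 : p = i
    · rw [e1, ri]; exact (hS.mem _).1 hyz.1.mem_left
    by_cases e2 : p = j
    · rw [e2, rj]; exact (hS.mem _).1 hyz.1.mem_right
    rw [rne p e1 e2]
    exact hS.rmem p (hmem' _ hp e1 e2)
  · intro u v huv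
    rcases hS.step u v huv with h7 | ⟨p, p', ⟨hpp, a1, a2⟩, h7⟩
    · exact Or.inl h7
    · right
      rcases hJ p p' hpp with ⟨b1, -⟩ | ⟨b1, -⟩ | ⟨b1, b2, b3, b4⟩
      · exact absurd b1 a1
      · exact absurd b1 a2
      · exact ⟨p, p', hpp, by rw [rne p b1 b2, rne p' b3 b4]; exact h7⟩
  · intro p p' hpp
    rcases hJ p p' hpp with ⟨rfl, rfl⟩ | ⟨rfl, rfl⟩ | ⟨b1, b2, b3, b4⟩
    · rw [ri, rj]; exact hyz.1
    · rw [ri, rj]; exact hyz.1.symm
    · rw [rne p b1 b2, rne p' b3 b4]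
      exact hS.pairs p p' ⟨hpp, b1, b2⟩
  · intro u v huv hsne
    refine ⟨huv.1, ?_⟩
    rintro ⟨p, p', hpp, h5⟩
    rcases hJ p p' hpp with ⟨rfl, rfl⟩ | ⟨rfl, rfl⟩ | ⟨b1, b2, b3, b4⟩
    · rw [ri, rj] at h5; exact hsne h5
    · rw [ri, rj] at h5; exact hsne (h5.trans Sym2.eq_swap)
    · rw [rne p b1 b2, rne p' b3 b4] at h5
      exact huv.2 ⟨p, p', ⟨hpp, b1, b2⟩, h5⟩

end Pool.Agent.Helper43.LT
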