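import Pool.Agent.Helper43.LT.Sol

/-!
# One more cell
-/

set_option autoImplicit false

namespace Pool.Agent.Helper43.LT

open Pool.Agent.Helper43.LG

variable {X : Type*}

/-- Cells along a rooted tree: `par j` is the parent of the cell `j`, and `φ j` maps it to the cell
`j` along edges. -/
structure TCells (R : X → X → Prop) (N : ℕ) (D : ℕ → Set X) (par : ℕ → ℕ) (φ : ℕ → X → X) :
    Prop where
  symm : ∀ x y, R x y → R y x
  disj : ∀ i j, i < N → j < N → ∀ x, x ∈ D i → x ∈ D j → i = j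
  par_lt : ∀ j, 0 < j → j < N → par j < j
  cross : ∀ j, 0 < j → j < N → ∀ x ∈ D (par j), φ j x ∈ D j ∧ R x (φ j x)
  inj : ∀ j, 0 < j → j < N → ∀ x ∈ D (par j), ∀ y ∈ D (par j), φ j x = φ j y → x = y
  surj : ∀ j, 0 < j → j < N → ∀ y ∈ D j, ∃ x ∈ D (par j), φ j x = y
  three : ∀ j < N, ∀ a b, ∃ c ∈ D j, c ≠ a ∧ c ≠ b
  path : ∀ j < N, ∀ x ∈ D j, ∀ y ∈ D j, x ≠ y → ∃ l : List X, l.Nodup ∧
    (∀ z, z ∈ l ↔ z ∈ D j) ∧ Seg R x y l
  two : ∀ u < N, ((Finset.range N).filter (fun j => 0 < j ∧ par j = u)).card ≤ 2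

/-- the union of the first `k` cells -/
def Un (D : ℕ → Set X) (k : ℕ) : Set X := {x | ∃ j < k, x ∈ D j}

theorem Un_succ (D : ℕ → Set X) (k : ℕ) : Un D (k + 1) = Un D k ∪ D k := by
  ext x
  constructor
  · rintro ⟨j, hj, hx⟩
    rcases Nat.lt_or_ge j k with h | h
    · exact Or.inl ⟨j, h, hx⟩
    · obtain rfl : j = k := by omega
      exact Or.inr hx
  · rintro (⟨j, hj, hx⟩ | hx)
    · exact ⟨j, by omega, hx⟩
    · exact ⟨k, by omega, hx⟩

/-- there are `n` free pairs inside `V` -/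
def FrN (l : List X) (M : X → X → Prop) (r : X → X) (V : Set X) (n : ℕ) : Prop :=
  ∃ E : Finset (Sym2 X), n ≤ E.card ∧ ∀ e ∈ E, ∃ u v, e = s(u, v) ∧ u ∈ V ∧ v ∈ V ∧ Free l M r u v

theorem FrN.imp {l l' : List X} {M M' : X → X → Prop} {r r' : X → X} {V : Set X} {n : ℕ}
    (h : FrN l M r V n) (H : ∀ u v, u ∈ V → v ∈ V → Free l M r u v → Free l' M' r' u v) :
    FrN l' M' r' V n := by
  obtain ⟨E, h1, h2⟩ := h
  refine ⟨E, h1, fun e he => ?_⟩
  obtain ⟨u, v, h3, h4, h5, h6⟩ := h2 e he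
  exact ⟨u, v, h3, h4, h5, H u v h4 h5 h6⟩

/-- a solution for the first `k` cells -/
structure Fine (R : X → X → Prop) (D : ℕ → Set X) (k : ℕ) (S : Set X) (M : X → X → Prop)
    (F : X → Set X) (need : ℕ → ℕ) (r : X → X) (l : List X) : Prop where
  sol : Sol R (Un D k) S M r l
  fin : ∀ q ∈ S, r q ∈ F q
  fr : ∀ j < k, FrN l M r (D j) (need j)

/-- a solution for the first `k + 1` cells which contains the path `h` of the cell `k` -/
structure Half (R : X → X → Prop) (D : ℕ → Set X) (k : ℕ) (S : Set X) (M : X → X → Prop)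
    (F : X → Set X) (need : ℕ → ℕ) (r : X → X) (l h : List X) : Prop where
  sol : Sol R (Un D (k + 1)) S M r l
  fin : ∀ q ∈ S, r q ∈ F q
  fr : ∀ j < k, FrN l M r (D j) (need j)
  nodup : h.Nodup
  len : 3 ≤ h.length
  mem : ∀ z, z ∈ h ↔ z ∈ D k
  free : ∀ u v, Nb h u v → Free l M r u v

section

variable {R : X → X → Prop} {N : ℕ} {D : ℕ → Set X} {par : ℕ → ℕ} {φ : ℕ → X → X}

theorem TCells.not_mem (hc : TCells R N D par φ) {k : ℕ} (hk : k < N) {z : X} (hz : z ∈ D k) :
    z ∉ Un D k := by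
  rintro ⟨j, hj, h⟩
  have := hc.disj j k (by omega) hk z h hz
  omega

theorem TCells.path_len (hc : TCells R N D par φ) {k : ℕ} (hk : k < N) {h : List X}
    (hm : ∀ z, z ∈ h ↔ z ∈ D k) {x0 : X} (hx0 : x0 ∈ D k) : 3 ≤ h.length := by
  by_contra hcon
  push Not at hcon
  rcases h with _ | ⟨a, _ | ⟨b, _ | ⟨c, l⟩⟩⟩
  · have := (hm x0).2 hx0
    simp at this
  · obtain ⟨c, h1, h2, -⟩ := hc.three k hk a a
    have := (hm c).2 h1
    simp only [List.mem_singleton] at this
    exact h2 this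
  · obtain ⟨c, h1, h2, h3⟩ := hc.three k hk a b
    have := (hm c).2 h1
    simp only [List.mem_cons, List.not_mem_nil, or_false] at this
    rcases this with h4 | h4
    · exact h2 h4
    · exact h3 h4
  · simp at hcon
    omega

theorem union_eq {k : ℕ} {h : List X} (hm : ∀ z, z ∈ h ↔ z ∈ D k) :
    Un D k ∪ {z | z ∈ h} = Un D (k + 1) := by
  rw [Un_succ]
  congr 1
  ext z
  exact hm z

open Classical in
/-- inserting a cell without slots -/
theorem half0 (hc : TCells R N D par φ) {k : ℕ} (h0 : 0 < k) (hk : k < N) {S : Set X}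
    {M : X → X → Prop} {F : X → Set X} {need : ℕ → ℕ} {r : X → X} {l : List X} (hM : Mat M S)
    (hF : Fine R D k S M F (Function.update need (par k) (need (par k) + 1)) r l) :
    ∃ l' h, Half R D k S M F need r l' h := by
  obtain ⟨E, hE1, hE2⟩ := hF.fr (par k) (hc.par_lt k h0 hk)
  rw [Function.update_self] at hE1
  obtain ⟨e0, he0⟩ : E.Nonempty := Finset.card_pos.1 (by omega)
  obtain ⟨x, y, rfl, hx, hy, hxy⟩ := hE2 e0 he0
  have hne : x ≠ y := hxy.1.ne hF.sol.len hF.sol.nodup
  obtain ⟨hx1, hx2⟩ := hc.cross k h0 hk x hx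
  obtain ⟨hy1, hy2⟩ := hc.cross k h0 hk y hy
  obtain ⟨h, hh1, hh2, hh3⟩ := hc.path k hk _ hx1 _ hy1
    (fun e => hne (hc.inj k h0 hk x hx y hy e))
  obtain ⟨l', a1, a2, a3⟩ := hF.sol.ins_free hc.symm hM hxy hh1
    (fun z hz => hc.not_mem hk ((hh2 z).1 hz)) hh3 hx2 (hc.symm _ _ hy2)
  rw [union_eq hh2] at a1
  refine ⟨l', h, a1, hF.fin, ?_, hh1, hc.path_len hk hh2 hx1, hh2, a3⟩
  intro j hj
  by_cases hju : j = par k
  · subst hju
    refine ⟨E.erase s(x, y), ?_, fun e he => ?_⟩
    · rw [Finset.card_erase_of_mem he0]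
      omega
    · obtain ⟨b1, b2⟩ := Finset.mem_erase.1 he
      obtain ⟨u, v, rfl, c2, c3, c4⟩ := hE2 e b2
      exact ⟨u, v, rfl, c2, c3, a2 u v c4 b1⟩
  · have h1 := hF.fr j hj
    rw [Function.update_of_ne hju] at h1
    refine h1.imp fun u v hu hv huv => a2 u v huv fun e => hju ?_
    have hpk := hc.par_lt k h0 hk
    rw [Sym2.eq_iff] at e
    rcases e with ⟨e, -⟩ | ⟨e, -⟩
    · exact hc.disj j (par k) (by omega) (by omega) u hu (e ▸ hx)
    · exact hc.disj j (par k) (by omega) (by omega) u hu (e ▸ hy)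

open Classical in
/-- inserting a cell at a slot, which is moved to this cell -/
theorem half1 (hc : TCells R N D par φ) {k : ℕ} (h0 : 0 < k) (hk : k < N) {S : Set X}
    {M : X → X → Prop} {F F' : X → Set X} {need : ℕ → ℕ} {r : X → X} {l : List X} (hM : Mat M S)
    (hF : Fine R D k S M F' need r l) {t e : X} (ht : t ∈ S) (hFt : F' t ⊆ D (par k))
    (hFF : ∀ q, q ≠ t → F' q ⊆ F q) (he : e ∈ F t) (hek : e ∈ D k) (hes : e ≠ φ k (r t)) :
    ∃ l' h, Half R D k S M F need (Function.update r t e) l' h ∧ h.getLast? = some e ∧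
      (∀ q ∈ S, q ≠ t → (Function.update r t e) q ∉ D k) := by
  obtain ⟨hx1, hx2⟩ := hc.cross k h0 hk (r t) (hFt (hF.fin t ht))
  obtain ⟨h, hh1, hh2, hh3⟩ := hc.path k hk _ hx1 _ hek hes.symm
  obtain ⟨l', a1, a2, a3⟩ := hF.sol.ins_slot hc.symm hM ht hh1
    (fun z hz => hc.not_mem hk ((hh2 z).1 hz)) hh3 hx2
  rw [union_eq hh2] at a1
  refine ⟨l', h, ⟨a1, ?_, ?_, hh1, hc.path_len hk hh2 hx1, hh2, a3⟩, hh3.last, ?_⟩
  · intro q hq
    by_cases hqt : q = t
    · rw [hqt, Function.update_self]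
      exact he
    · rw [Function.update_of_ne hqt]
      exact hFF q hqt (hF.fin q hq)
  · intro j hj
    exact (hF.fr j hj).imp fun u v hu hv huv => a2 u v ⟨j, hj, hu⟩ ⟨j, hj, hv⟩ huv
  · intro q hq hqt hD
    rw [Function.update_of_ne hqt] at hD
    exact hc.not_mem hk hD (hF.sol.rmem q hq)

/-- inserting a cell between two joined partners -/
theorem half2 (hc : TCells R N D par φ) {k : ℕ} (hk : k < N) {S : Set X}
    {M : X → X → Prop} {F : X → Set X} {need : ℕ → ℕ} {r : X → X} {l : List X} (hM : Mat M S)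
    {i j a b : X} (hia : M i a) (hjb : M j b) (hij : i ≠ j) (hn : ¬ M i j)
    (hF : Fine R D k (S \ {i, j}) (jn M i j a b) F need r l) {c d : X} (hc1 : c ∈ F i)
    (hd1 : d ∈ F j) (hc2 : c ∈ D k) (hd2 : d ∈ D k) (hcd : c ≠ d) :
    ∃ r' l' h, Half R D k S M F need r' l' h := by
  classical
  obtain ⟨h, hh1, hh2, hh3⟩ := hc.path k hk _ hc2 _ hd2 hcd
  obtain ⟨l', a1, a2, a3⟩ := Sol.ins_join hc.symm hM hia hjb hij hn hF.sol hh1
    (fun z hz => hc.not_mem hk ((hh2 z).1 hz)) hh3 hcd
  rw [union_eq hh2] at a1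
  refine ⟨_, l', h, ⟨a1, ?_, ?_, hh1, hc.path_len hk hh2 hc2, hh2, a3⟩⟩
  · intro q hq
    by_cases hqj : q = j
    · rw [hqj, Function.update_self]
      exact hd1
    · rw [Function.update_of_ne hqj]
      by_cases hqi : q = i
      · rw [hqi, Function.update_self]
        exact hc1
      · rw [Function.update_of_ne hqi]
        exact hF.fin q ⟨hq, by simp [hqi, hqj]⟩
  · intro j hj
    exact (hF.fr j hj).imp fun u v hu hv huv => a2 u v ⟨j, hj, hu⟩ ⟨j, hj, hv⟩ huv

/-- no more slots in the last cell -/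
theorem Half.close {k : ℕ} {S : Set X} {M : X → X → Prop} {F : X → Set X} {need : ℕ → ℕ}
    {r : X → X} {l h : List X} (hH : Half R D k S M F need r l h) (hn : need k ≤ 2) :
    Fine R D (k + 1) S M F need r l := by
  refine ⟨hH.sol, hH.fin, fun j hj => ?_⟩
  rcases Nat.lt_or_ge j k with hjk | hjk
  · exact hH.fr j hjk
  · obtain rfl : j = k := by omega
    obtain ⟨a, b, c, h1, h2, h3, h4, h5⟩ := two_edges hH.len hH.nodup
    classical
    refine ⟨{s(a, b), s(b, c)}, ?_, fun e he => ?_⟩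
    · rw [Finset.card_pair]
      · exact hn
      · intro e
        rw [Sym2.eq_iff] at e
        rcases e with ⟨e, -⟩ | ⟨e, -⟩
        · exact h3 e
        · exact h5 e
    · rw [Finset.mem_insert, Finset.mem_singleton] at he
      rcases he with rfl | rfl
      · exact ⟨a, b, rfl, (hH.mem a).1 h1.mem_left, (hH.mem b).1 h1.mem_right, hH.free a b h1⟩
      · exact ⟨b, c, rfl, (hH.mem b).1 h2.mem_left, (hH.mem c).1 h2.mem_right, hH.free b c h2⟩

/-- a matched pair of slots in the last cell -/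
theorem Half.close_pair {k : ℕ} {S : Set X} {M : X → X → Prop} {F : X → Set X} {need : ℕ → ℕ}
    {r : X → X} {l h : List X} (hc : TCells R N D par φ) (hk : k < N) (hM : Mat M S) {i j : X}
    (hij : M i j)
    (hH : Half R D k (S \ {i, j}) (er M i j) F need r l h) {y z : X} (hy : y ∈ F i)
    (hz : z ∈ F j) (hyz : Nb h y z) (hry : ∀ p ∈ S \ {i, j}, r p ≠ y)
    (hrz : ∀ p ∈ S \ {i, j}, r p ≠ z) (hn : need k ≤ 1) :
    ∃ r', Fine R D (k + 1) S M F need r' l := by
  classical
  obtain ⟨a1, a2⟩ := Sol.add_pair hM hij hH.sol (hH.free y z hyz) hry hrz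
  refine ⟨_, a1, ?_, fun j' hj' => ?_⟩
  · intro q hq
    by_cases hqj : q = j
    · rw [hqj, Function.update_self]
      exact hz
    · rw [Function.update_of_ne hqj]
      by_cases hqi : q = i
      · rw [hqi, Function.update_self]
        exact hy
      · rw [Function.update_of_ne hqi]
        exact hH.fin q ⟨hq, by simp [hqi, hqj]⟩
  · rcases Nat.lt_or_ge j' k with hjk | hjk
    · refine (hH.fr j' hjk).imp fun u v hu hv huv => a2 u v huv fun e => ?_
      have hy' := (hH.mem y).1 hyz.mem_left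
      have hz' := (hH.mem z).1 hyz.mem_right
      rw [Sym2.eq_iff] at e
      rcases e with ⟨e, -⟩ | ⟨e, -⟩
      · have := hc.disj j' k (by omega) hk u hu (e ▸ hy')
        omega
      · have := hc.disj j' k (by omega) hk u hu (e ▸ hz')
        omega
    · obtain rfl : j' = k := by omega
      obtain ⟨a, b, c, h1, h2, h3, h4, h5⟩ := two_edges hH.len hH.nodup
      by_cases hab : s(a, b) = s(y, z)
      · refine ⟨{s(b, c)}, by rw [Finset.card_singleton]; exact hn, fun e he => ?_⟩
        rw [Finset.mem_singleton] at he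
        subst he
        refine ⟨b, c, rfl, (hH.mem b).1 h2.mem_left, (hH.mem c).1 h2.mem_right,
          a2 b c (hH.free b c h2) fun e => ?_⟩
        rw [← hab, Sym2.eq_iff] at e
        rcases e with ⟨e, -⟩ | ⟨-, e⟩
        · exact h3 e.symm
        · exact h5 e.symm
      · refine ⟨{s(a, b)}, by rw [Finset.card_singleton]; exact hn, fun e he => ?_⟩
        rw [Finset.mem_singleton] at he
        subst he
        exact ⟨a, b, rfl, (hH.mem a).1 h1.mem_left, (hH.mem b).1 h1.mem_right,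
          a2 a b (hH.free a b h1) hab⟩

/-- a cell with three slots no two of which are matched -/
theorem triple (hc : TCells R N D par φ) {k : ℕ} (h0 : 0 < k) (hk : k < N) {S : Set X}
    {M : X → X → Prop} {F F' : X → Set X} {need : ℕ → ℕ} {r : X → X} {l : List X} (hM : Mat M S)
    {p i j a b : X} (hpa : M p a) (hib : M i b) (hpi : p ≠ i) (hn : ¬ M p i)
    (hF : Fine R D k (S \ {p, i}) (jn M p i a b) F' need r l) (hj : j ∈ S) (hjp : j ≠ p)
    (hji : j ≠ i) (hFj : F' j ⊆ D (par k)) (hFF : ∀ q, q ≠ j → F' q ⊆ F q) (hpk : p ∈ D k)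
    (hpF : p ∈ F p) (hiF : D k ⊆ F i) (hjF : D k ⊆ F j) (hps : φ k (r j) ≠ p)
    (hneed : need k = 0) : ∃ r' l', Fine R D (k + 1) S M F need r' l' := by
  classical
  have hjS : j ∈ S \ {p, i} := ⟨hj, by simp [hjp, hji]⟩
  obtain ⟨hx1, hx2⟩ := hc.cross k h0 hk (r j) (hFj (hF.fin j hjS))
  obtain ⟨h, hh1, hh2, hh3⟩ := hc.path k hk _ hpk _ hx1 hps.symm
  have hlen := hc.path_len hk hh2 hpk
  match h, hh1, hh2, hh3, hlen with
  | p' :: h1 :: h2 :: rest, hh1, hh2, hh3, _ =>
    have hp' : p' = p := Option.some.inj hh3.head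
    subst hp'
    have e1 : p' :: h1 :: h2 :: rest = [p', h1] ++ (h2 :: rest) := rfl
    rw [e1] at hh1 hh3
    obtain ⟨x, y, b1, b2, -⟩ := hh3.split (by simp) (by simp)
    have hx : x = h1 := by
      have := b1.last
      simp only [List.getLast?_cons_cons, List.getLast?_singleton, Option.some.injEq] at this
      exact this.symm
    have hy : y = h2 := by
      have := b2.head
      simp only [List.head?_cons, Option.some.injEq] at this
      exact this.symm
    subst hx hy
    obtain ⟨nd1, nd2, nd3⟩ := List.nodup_append.1 hh1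
    have hmem : ∀ z, z ∈ (y :: rest).reverse → z ∈ D k := by
      intro z hz
      rw [List.mem_reverse] at hz
      exact (hh2 z).1 (List.mem_cons_of_mem _ (List.mem_cons_of_mem _ hz))
    obtain ⟨l1, a1, a2, -⟩ := hF.sol.ins_slot hc.symm (mat_jn hM hpa hib hpi hn) hjS
      (List.nodup_reverse.2 nd2) (fun z hz => hc.not_mem hk (hmem z hz))
      (b2.reverse hc.symm) hx2
    have hpx : p' ≠ x := by
      simp only [List.nodup_cons, List.mem_singleton] at nd1
      exact nd1.1
    obtain ⟨l2, c1, c2, -⟩ := Sol.ins_join hc.symm hM hpa hib hpi hn a1 (h := [p', x]) nd1 (by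
      intro z hz hz'
      have hzk : z ∈ D k := by
        apply (hh2 z).1
        simp only [List.mem_cons, List.not_mem_nil, or_false] at hz ⊢
        rcases hz with h | h
        · exact Or.inl h
        · exact Or.inr (Or.inl h)
      rcases hz' with hz' | hz'
      · exact hc.not_mem hk hzk hz'
      · have hz'' : z ∈ y :: rest := List.mem_reverse.1 hz'
        exact nd3 z hz z hz'' rfl) b1 hpx
    have hU : Un D k ∪ {z | z ∈ (y :: rest).reverse} ∪ {z | z ∈ [p', x]} = Un D (k + 1) := by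
      rw [Un_succ, Set.union_assoc]
      congr 1
      ext z
      rw [← hh2 z]
      simp only [Set.mem_union, Set.mem_ofPred_eq, List.mem_reverse, List.mem_cons,
        List.not_mem_nil, or_false]
      tauto
    rw [hU] at c1
    refine ⟨_, l2, c1, ?_, fun j' hj' => ?_⟩
    · intro q hq
      by_cases hqi : q = i
      · rw [hqi, Function.update_self]
        exact hiF ((hh2 x).1 (by simp))
      · rw [Function.update_of_ne hqi]
        by_cases hqp : q = p'
        · rw [hqp, Function.update_self]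
          exact hpF
        · rw [Function.update_of_ne hqp]
          by_cases hqj : q = j
          · rw [hqj, Function.update_self]
            exact hjF ((hh2 y).1 (by simp))
          · rw [Function.update_of_ne hqj]
            exact hFF q hqj (hF.fin q ⟨hq, by simp [hqi, hqp]⟩)
    · rcases Nat.lt_or_ge j' k with hjk | hjk
      · refine (hF.fr j' hjk).imp fun u v hu hv huv => ?_
        exact c2 u v (Or.inl ⟨j', hjk, hu⟩) (Or.inl ⟨j', hjk, hv⟩)
          (a2 u v ⟨j', hjk, hu⟩ ⟨j', hjk, hv⟩ huv)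
      · obtain rfl : j' = k := by omega
        exact ⟨∅, by rw [hneed]; exact Nat.zero_le _, by simp⟩

end

end Pool.Agent.Helper43.LT
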